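import Pool.Agent.H510.UZ.Glob
import Pool.Graph.R_seed8.Helper240.ZU.N7
import Pool.Graph.R_seed8.Helper240.ZFM.N6
import Pool.Graph.R_seed8.Helper240.ZFM.Q5b

/-!
The interval `(0, T]` and universality.
-/

set_option autoImplicit false

open Complex Filter Topology MeasureTheory
open Pool.Agent.Q97.UM (dp N2 ZI mz)

namespace Pool.Agent.H510.UZ

noncomputable section

theorem NM_all (a b : ℝ) (ha : 1 ≤ a) : NM a b (fun _ => True) = (H370.NN riemannZeta a b : ℝ) := by
  classical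
  rw [NM_eq ha, H370.NN_eq H370.good_zeta ha, Nat.cast_sum]
  simp only [Finset.filter_true]
  rfl

/-- the number of all zeros -/
theorem NM_crude : ∃ C : ℝ, 0 < C ∧ ∀ U : ℝ, 16 ≤ U → NM 0 U (fun _ => True) ≤ C * (U * Real.log U) := by
  obtain ⟨C, hC, h⟩ := H370.NN_crude H370.good_zeta
  refine ⟨C + NM 0 32 (fun _ => True), by have := NM_nonneg 0 32 (fun _ => True); linarith, ?_⟩
  intro U hU
  obtain ⟨n, hn1, hn2⟩ := exists_nat_pow_near (x := U / 16) (y := 2) (by linarith) (by norm_num)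
  have hp : (0 : ℝ) < 2 ^ n := by positivity
  have h1 : 16 ≤ U / 2 ^ n := by
    rw [le_div_iff₀ hp]
    linarith
  have h2 : U / 2 ^ n ≤ 32 := by
    rw [div_le_iff₀ hp]
    rw [pow_succ] at hn2
    linarith
  have hlog : 1 ≤ Real.log U := by
    rw [Real.le_log_iff_exp_le (by linarith)]
    have := Real.exp_one_lt_d9
    linarith
  have h3 := dy_up C 16 hC.le le_rfl 0 le_rfl (fun _ => True) (fun _ => True) (by
    intro T hT
    rw [NM_all T (2 * T) (by linarith)]
    have := h T (by linarith) T (2 * T) le_rfl le_rfl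
    linarith) U n h1
  rw [NM_add 0 (U / 2 ^ n) U le_rfl (by linarith) (by
    apply div_le_self (by linarith)
    exact one_le_pow₀ (by norm_num))]
  have h4 : NM 0 (U / 2 ^ n) (fun _ => True) ≤ NM 0 32 (fun _ => True) := by
    rw [NM_add 0 (U / 2 ^ n) 32 le_rfl (by linarith) h2]
    have := NM_nonneg (U / 2 ^ n) 32 (fun _ => True)
    linarith
  have h5 : 0 ≤ NM 0 32 (fun _ => True) := NM_nonneg _ _ _
  have h6 : 1 ≤ U * Real.log U := by nlinarith
  have h7 : C * (U - U / 2 ^ n) * Real.log U ≤ C * (U * Real.log U) := by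
    have : (U - U / 2 ^ n) * Real.log U ≤ U * Real.log U := by
      apply mul_le_mul_of_nonneg_right (by linarith) (by linarith)
    calc C * (U - U / 2 ^ n) * Real.log U = C * ((U - U / 2 ^ n) * Real.log U) := by ring
      _ ≤ _ := by gcongr
  have h8 : NM 0 32 (fun _ => True) ≤ NM 0 32 (fun _ => True) * (U * Real.log U) := le_mul_of_one_le_right h5 h6
  nlinarith

/-- the simple zeros up to `U` -/
theorem global_low (ε : ℝ) (hε : 0 < ε) : ∃ d : ℝ, 0 < d ∧ d ≤ 1 ∧ ∀ (K : Set ℂ), IsCompact K →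
    (∀ z ∈ K, 1 / 2 < z.re ∧ z.re < 1) → ∀ κ : ℝ, 0 < κ → ∀ᶠ U : ℝ in atTop, ∀ (A : Set (ℂ → ℂ)) (η : ℝ),
    (2 - H370.cMTinv) * (Real.log U / (2 * Real.pi) * Ms 0 U (Near K A η)) - ε * U * Real.log U ≤
      (({γ ∈ SI (d / Real.log U) 0 U | Near K A (η + κ) γ}.ncard : ℕ) : ℝ) := by
  classical
  obtain ⟨d, hd0, hd1, hval⟩ := value_transfer (ε / 4) (by positivity)
  refine ⟨d, hd0, hd1, ?_⟩
  intro K hK hKs κ hκ
  obtain ⟨T₁, hT₁⟩ := eventually_atTop.1 (hval K hK hKs κ hκ)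
  set T₀ := max T₁ 16 with hT₀
  obtain ⟨J, hJ⟩ := exists_pow_lt_of_lt_one (show (0 : ℝ) < ε / 4 by positivity) (show (1 / 2 : ℝ) < 1 by norm_num)
  have hJ' : 1 / (2 : ℝ) ^ J < ε / 4 := by
    rw [one_div_pow] at hJ
    exact hJ
  filter_upwards [eventually_ge_atTop (T₀ * 2 ^ J), eventually_ge_atTop 16,
    Real.tendsto_log_atTop.eventually_ge_atTop (J * 4 / ε)] with U hU hU16 hUJ A η
  have hp : (0 : ℝ) < 2 ^ J := by positivity
  have h1 : T₀ ≤ U / 2 ^ J := by rwa [le_div_iff₀ hp]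
  have hpi3 := Real.pi_gt_three
  have hL : 0 < Real.log U := Real.log_pos (by linarith)
  have hc1 := H370.cMTinv_gt_one
  have hc2 := H370.cMTinv_lt
  have h2 := dy_low (2 - H370.cMTinv) (ε / 4) d T₀ (by linarith) (by positivity) hd0.le (le_max_right _ _)
    (Near K A η) (Near K A (η + κ)) (by
      intro T hT
      have h16 : 16 ≤ T := (le_max_right _ _).trans hT
      have h3 := (hT₁ T ((le_max_left _ _).trans hT) A η).1
      rw [ZI_card h16 hd1, V_eq] at h3
      exact h3) U J h1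
  set a := U / 2 ^ J with ha
  have ha0 : 0 < a := by have : (16 : ℝ) ≤ T₀ := le_max_right _ _; linarith
  have haU : a ≤ U := div_le_self (by linarith) (one_le_pow₀ (by norm_num))
  have h3 : (({γ ∈ SI (d / Real.log U) a U | Near K A (η + κ) γ}.ncard : ℕ) : ℝ) ≤
      (({γ ∈ SI (d / Real.log U) 0 U | Near K A (η + κ) γ}.ncard : ℕ) : ℝ) := by
    have := SI_add (d / Real.log U) (d / Real.log U) 0 a U le_rfl ha0.le haU le_rfl (Near K A (η + κ))
    exact_mod_cast le_trans (Nat.le_add_left _ _) this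
  have h4 : Ms 0 U (Near K A η) ≤ a + Ms a U (Near K A η) := by
    rw [Ms_add 0 a U ha0.le haU]
    have := Ms_le 0 a ha0.le (Near K A η)
    linarith
  have h5 : Real.log U - J ≤ Real.log a := by
    rw [ha, Real.log_div (by linarith) hp.ne', Real.log_pow]
    have := Real.log_two_lt_d9
    have hJ0 : (0 : ℝ) ≤ J := Nat.cast_nonneg _
    nlinarith
  have h6 : a ≤ ε / 4 * U := by
    rw [ha, div_eq_mul_one_div, mul_comm]
    apply mul_le_mul_of_nonneg_right hJ'.le (by linarith)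
  have h7 : (J : ℝ) ≤ ε / 4 * Real.log U := by
    have : J * 4 / ε * (ε / 4) ≤ Real.log U * (ε / 4) := by gcongr
    have e : J * 4 / ε * (ε / 4) = (J : ℝ) := by field_simp
    linarith
  set M := Ms a U (Near K A η) with hM
  have hM0 : 0 ≤ M := Ms_nonneg _ _ _
  have hMU : M ≤ U := by
    have := Ms_le a U haU (Near K A η)
    linarith
  set q := (2 - H370.cMTinv) / (2 * Real.pi) with hq
  have hq0 : 0 ≤ q := div_nonneg (by linarith) (by positivity)
  have hq1 : q ≤ 1 := by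
    rw [hq, div_le_one (by positivity)]
    linarith
  have e1 : (2 - H370.cMTinv) * (Real.log a / (2 * Real.pi) * M) = q * (Real.log a * M) := by rw [hq]; field_simp
  have e2 : (2 - H370.cMTinv) * (Real.log U / (2 * Real.pi) * Ms 0 U (Near K A η)) =
      q * (Real.log U * Ms 0 U (Near K A η)) := by rw [hq]; field_simp
  rw [e1] at h2
  rw [e2]
  have g1 : (Real.log U - J) * M ≤ Real.log a * M := mul_le_mul_of_nonneg_right h5 hM0
  have g2 : Real.log U * Ms 0 U (Near K A η) ≤ Real.log U * (a + M) := mul_le_mul_of_nonneg_left h4 hL.le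
  have g3 : Real.log U * a ≤ Real.log U * (ε / 4 * U) := mul_le_mul_of_nonneg_left h6 hL.le
  have g4 : (J : ℝ) * M ≤ ε / 4 * Real.log U * U := by
    apply mul_le_mul h7 hMU hM0 (by positivity)
  have g5 : Real.log U * Ms 0 U (Near K A η) ≤ Real.log a * M + (ε / 2) * (U * Real.log U) := by linarith
  have g6 := mul_le_mul_of_nonneg_left g5 hq0
  have g7 : q * ((ε / 2) * (U * Real.log U)) ≤ 1 * ((ε / 2) * (U * Real.log U)) := by
    apply mul_le_mul_of_nonneg_right hq1 (by positivity)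
  have g8 : ε / 4 * (U - a) * Real.log U ≤ ε / 4 * U * Real.log U := by
    apply mul_le_mul_of_nonneg_right _ hL.le
    apply mul_le_mul_of_nonneg_left (by linarith) (by positivity)
  nlinarith

/-- all zeros up to `U`, upper bound -/
theorem global_up (ε : ℝ) (hε : 0 < ε) (K : Set ℂ) (hK : IsCompact K) (hKs : ∀ z ∈ K, 1 / 2 < z.re ∧ z.re < 1)
    (κ : ℝ) (hκ : 0 < κ) : ∀ᶠ U : ℝ in atTop, ∀ (A : Set (ℂ → ℂ)) (η : ℝ),
    NM 0 U (Near K A η) ≤ Real.log U / (2 * Real.pi) * Ms 0 U (Near K A (η + κ)) + ε * U * Real.log U := by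
  classical
  obtain ⟨d, hd0, hd1, hval⟩ := value_transfer (ε / 4) (by positivity)
  obtain ⟨T₁, hT₁⟩ := eventually_atTop.1 (hval K hK hKs κ hκ)
  obtain ⟨C, hC, hcr⟩ := NM_crude
  set T₀ := max T₁ 16 with hT₀
  obtain ⟨J, hJ⟩ := exists_pow_lt_of_lt_one (show (0 : ℝ) < ε / (4 * C) by positivity) (show (1 / 2 : ℝ) < 1 by norm_num)
  have hJ' : 1 / (2 : ℝ) ^ J < ε / (4 * C) := by
    rw [one_div_pow] at hJ
    exact hJ
  filter_upwards [eventually_ge_atTop (T₀ * 2 ^ J), eventually_ge_atTop 16] with U hU hU16 A η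
  have hp : (0 : ℝ) < 2 ^ J := by positivity
  have h1 : T₀ ≤ U / 2 ^ J := by rwa [le_div_iff₀ hp]
  have hL : 0 < Real.log U := Real.log_pos (by linarith)
  have hpi3 := Real.pi_gt_three
  have h2 := dy_up (ε / 4) T₀ (by positivity) (le_max_right _ _) (1 / (2 * Real.pi)) (by positivity)
    (Near K A (η + κ)) (Near K A η) (by
      intro T hT
      have h16 : 16 ≤ T := (le_max_right _ _).trans hT
      have h3 := (hT₁ T ((le_max_left _ _).trans hT) A η).2.2.2
      rw [← NM_eq (by linarith : (1 : ℝ) ≤ T), V_eq] at h3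
      refine h3.trans (le_of_eq ?_)
      ring) U J h1
  set a := U / 2 ^ J with ha
  have ha16 : 16 ≤ a := (le_max_right _ _).trans h1
  have ha0 : 0 < a := by linarith
  have haU : a ≤ U := div_le_self (by linarith) (one_le_pow₀ (by norm_num))
  rw [NM_add 0 a U le_rfl ha0.le haU]
  have h3 : NM 0 a (Near K A η) ≤ C * (a * Real.log a) :=
    (NM_mono 0 a le_rfl _ _ (fun _ _ => trivial)).trans (hcr a ha16)
  have h4 : C * (a * Real.log a) ≤ ε / 4 * U * Real.log U := by
    have e1 : Real.log a ≤ Real.log U := Real.log_le_log ha0 haU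
    have e2 : C * a ≤ ε / 4 * U := by
      rw [ha, div_eq_mul_one_div]
      have : C * (1 / 2 ^ J) ≤ ε / 4 := by
        have h5 : C * (1 / 2 ^ J) ≤ C * (ε / (4 * C)) := by gcongr
        have h6 : C * (ε / (4 * C)) = ε / 4 := by field_simp
        linarith
      calc C * (U * (1 / 2 ^ J)) = (C * (1 / 2 ^ J)) * U := by ring
        _ ≤ ε / 4 * U := by gcongr
    calc C * (a * Real.log a) = (C * a) * Real.log a := by ring
      _ ≤ (ε / 4 * U) * Real.log U := by
          apply mul_le_mul e2 e1 (Real.log_nonneg (by linarith)) (by positivity)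
      _ = _ := by ring
  have h5 : Ms a U (Near K A (η + κ)) ≤ Ms 0 U (Near K A (η + κ)) := by
    rw [Ms_add 0 a U ha0.le haU]
    have := Ms_nonneg 0 a (Near K A (η + κ))
    linarith
  have h6 : 1 / (2 * Real.pi) * (Real.log U * Ms a U (Near K A (η + κ))) ≤
      Real.log U / (2 * Real.pi) * Ms 0 U (Near K A (η + κ)) := by
    calc 1 / (2 * Real.pi) * (Real.log U * Ms a U (Near K A (η + κ)))
        = Real.log U / (2 * Real.pi) * Ms a U (Near K A (η + κ)) := by ring
      _ ≤ _ := by gcongr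
  have h7 : ε / 4 * (U - a) * Real.log U ≤ ε / 4 * U * Real.log U := by
    apply mul_le_mul_of_nonneg_right _ hL.le
    apply mul_le_mul_of_nonneg_left (by linarith) (by positivity)
  have h8 : 0 ≤ ε * U * Real.log U := by positivity
  nlinarith

/-- positive lower density of the heights gives a positive proportion of the zeros -/
theorem density_low (K : Set ℂ) (hK : IsCompact K) (hKs : ∀ z ∈ K, 1 / 2 < z.re ∧ z.re < 1) (A : Set (ℂ → ℂ))
    (η : ℝ) (hη : 0 < η) (c : ℝ) (hc : 0 < c) (h : ∀ᶠ U : ℝ in atTop, c * U ≤ Ms 0 U (Near K A (η / 2))) :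
    ∃ d p : ℝ, 0 < d ∧ 0 < p ∧ ∀ᶠ U : ℝ in atTop,
      p * (U * Real.log U) ≤ (({γ ∈ SI (d / Real.log U) 0 U | Near K A η γ}.ncard : ℕ) : ℝ) := by
  have hc1 := H370.cMTinv_gt_one
  have hc2 := H370.cMTinv_lt
  have hpi3 := Real.pi_gt_three
  set q := (2 - H370.cMTinv) / (2 * Real.pi) with hq
  have hq0 : 0 < q := div_pos (by linarith) (by positivity)
  obtain ⟨d, hd0, -, hg⟩ := global_low (q * c / 2) (by positivity)
  refine ⟨d, q * c / 2, hd0, by positivity, ?_⟩
  filter_upwards [h, hg K hK hKs (η / 2) (by positivity), eventually_ge_atTop 16] with U h1 h2 hU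
  have h3 := h2 A (η / 2)
  rw [add_halves] at h3
  refine le_trans ?_ h3
  have hL : 0 < Real.log U := Real.log_pos (by linarith)
  have e2 : (2 - H370.cMTinv) * (Real.log U / (2 * Real.pi) * Ms 0 U (Near K A (η / 2))) =
      q * (Real.log U * Ms 0 U (Near K A (η / 2))) := by rw [hq]; field_simp
  rw [e2]
  have e3 : q * (Real.log U * (c * U)) ≤ q * (Real.log U * Ms 0 U (Near K A (η / 2))) := by gcongr
  nlinarith

/-- conversely -/
theorem density_up (K : Set ℂ) (hK : IsCompact K) (hKs : ∀ z ∈ K, 1 / 2 < z.re ∧ z.re < 1) (A : Set (ℂ → ℂ))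
    (η : ℝ) (hη : 0 < η) (p : ℝ) (hp : 0 < p)
    (h : ∀ᶠ U : ℝ in atTop, p * (U * Real.log U) ≤ NM 0 U (Near K A (η / 2))) :
    ∃ c : ℝ, 0 < c ∧ ∀ᶠ U : ℝ in atTop, c * U ≤ Ms 0 U (Near K A η) := by
  have hpi3 := Real.pi_gt_three
  refine ⟨p, hp, ?_⟩
  filter_upwards [h, global_up (p / 2) (by positivity) K hK hKs (η / 2) (by positivity), eventually_ge_atTop 16]
    with U h1 h2 hU
  have h3 := h2 A (η / 2)
  rw [add_halves] at h3
  have hL : 0 < Real.log U := Real.log_pos (by linarith)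
  have h4 : p / 2 * (U * Real.log U) ≤ Real.log U / (2 * Real.pi) * Ms 0 U (Near K A η) := by linarith
  have h5 : Real.log U / (2 * Real.pi) * Ms 0 U (Near K A η) ≤ Real.log U / 2 * Ms 0 U (Near K A η) := by
    apply mul_le_mul_of_nonneg_right _ (Ms_nonneg _ _ _)
    apply div_le_div_of_nonneg_left hL.le (by norm_num) (by linarith)
  have h6 : Real.log U * (p * U) ≤ Real.log U * Ms 0 U (Near K A η) := by linarith
  exact le_of_mul_le_mul_left h6 hL

/-- the simple zeros are zeros -/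
theorem SI_le_NM (r U : ℝ) (P : ℝ → Prop) : (({γ ∈ SI r 0 U | P γ}.ncard : ℕ) : ℝ) ≤ NM 0 U P := by
  have hf : {s ∈ zeros 0 U | P s.im}.Finite := (zeros_finite 0 U le_rfl).subset fun _ h => h.1
  unfold NM
  rw [finsum_mem_eq_finite_toFinset_sum _ hf]
  have h1 : (({γ ∈ SI r 0 U | P γ}.ncard : ℕ) : ℝ) ≤ (hf.toFinset.card : ℝ) := by
    rw [← Set.ncard_eq_toFinset_card _ hf, ← Set.ncard_image_of_injective _ line_inj]
    have hsub : (fun γ : ℝ => (1 / 2 + γ * I : ℂ)) '' {γ ∈ SI r 0 U | P γ} ⊆ {s ∈ zeros 0 U | P s.im} := by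
      rintro s ⟨γ, ⟨⟨h1, h2, h3, h4, h5⟩, h6⟩, rfl⟩
      refine ⟨⟨h3, ?_, ?_, ?_, ?_⟩, ?_⟩
      · rw [(point γ).1]; norm_num
      · rw [(point γ).1]; norm_num
      · rw [(point γ).2]; exact h1
      · rw [(point γ).2]; exact h2
      · rw [(point γ).2]; exact h6
    exact_mod_cast Set.ncard_le_ncard hsub hf
  refine h1.trans ?_
  rw [Finset.card_eq_sum_ones, Nat.cast_sum]
  apply Finset.sum_le_sum
  intro s hs
  rw [Set.Finite.mem_toFinset] at hs
  have : 1 ≤ H370.mult riemannZeta s := H370.Loc.mult_pos' H370.good_zeta hs.1.2.2.2.1 hs.1.1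
  have h2 : analyticOrderNatAt riemannZeta s = H370.mult riemannZeta s := rfl
  rw [h2]
  exact_mod_cast this

/-- Voronin's theorem (Bagchi's form, with Mergelyan's theorem) -/
theorem voronin (K : Set ℂ) (f : ℂ → ℂ) (hK : IsCompact K) (hKs : ∀ z ∈ K, 1 / 2 < z.re ∧ z.re < 1)
    (hKc : IsConnected Kᶜ) (hf : ContinuousOn f K) (hd : DifferentiableOn ℂ f (interior K))
    (h0 : ∀ z ∈ interior K, f z ≠ 0) (η : ℝ) (hη : 0 < η) :
    ∃ c : ℝ, 0 < c ∧ ∀ᶠ U : ℝ in atTop, c * U ≤ Ms 0 U (Near K {f} η) := by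
  obtain ⟨c, T0, hc, hT0, hT⟩ := ZU.voronin_general K hK hKs f (by
      intro η hη
      obtain ⟨p, hp0, hp⟩ := ZFM.zero_free_of_approx hK hKc f hf hd
        h0 (fun η hη => ZFM.mergelyan hK hKc f hf hd η hη)
        (η / 2) (half_pos hη)
      obtain ⟨q, hq⟩ := ZU.exp_approx hK hKc p hp0 (η / 2) (half_pos hη)
      refine ⟨fun z => q.eval z, q.differentiable, fun z hz => ?_⟩
      calc ‖exp (q.eval z) - f z‖ = ‖(exp (q.eval z) - p.eval z) + (p.eval z - f z)‖ := by
            congr 1; ring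
        _ ≤ ‖exp (q.eval z) - p.eval z‖ + ‖p.eval z - f z‖ := norm_add_le _ _
        _ < η / 2 + η / 2 := add_lt_add (hq z hz) (hp z hz)
        _ = η := by ring) η hη
  refine ⟨c, hc, ?_⟩
  filter_upwards [eventually_ge_atTop T0] with U hU
  have h1 := hT U hU
  have hU0 : 0 < U := by linarith
  have h2 : volume {t : ℝ | t ∈ Set.Icc 0 U ∧ ∃ δ < η, ∀ z ∈ K, ‖riemannZeta (z + t * I) - f z‖ ≤ δ} ≤
      volume {t : ℝ | t ∈ Set.Ioc 0 U ∧ Near K {f} η t} := by
    have : {t : ℝ | t ∈ Set.Icc 0 U ∧ ∃ δ < η, ∀ z ∈ K, ‖riemannZeta (z + t * I) - f z‖ ≤ δ} ⊆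
        {t : ℝ | t ∈ Set.Ioc 0 U ∧ Near K {f} η t} ∪ {0} := by
      rintro t ⟨⟨h1, h2⟩, h3⟩
      rcases h1.lt_or_eq with h4 | h4
      · exact Or.inl ⟨⟨h4, h2⟩, f, rfl, h3⟩
      · exact Or.inr h4.symm
    refine (measure_mono this).trans ((measure_union_le _ _).trans ?_)
    simp
  have h3 := ENNReal.toReal_mono (Ms_fin 0 U (Near K {f} η)) (h1.trans h2)
  rwa [ENNReal.toReal_ofReal (by positivity)] at h3

end

end Pool.Agent.H510.UZ
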