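import Pool.Graph.R_seed8.Helper240.ZU.F
import Pool.Graph.R_seed8.H370R2.PC2
import Pool.Graph.R_seed8.H370R2.DirGood

/-!
The mean square of `ζ - ∑_{n ≤ N} n^{-s}` to the right of the critical line, over the real numbers and over the ordinates of
the nontrivial zeros.
-/

set_option autoImplicit false

open Complex Filter Topology Set MeasureTheory ZU

namespace Pool.Agent.H510.UZ

/-- the difference of zeta and the Dirichlet polynomial of length `N` -/
noncomputable def E (N : ℕ) (s : ℂ) : ℂ := riemannZeta s - DN N s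

/-- the area mean square near the height `t` -/
noncomputable def G (a b B : ℝ) (N : ℕ) (t : ℝ) : ℝ := ∫ w in rect a b B, ‖E N (w + t * I)‖ ^ 2

theorem DN_diff (N : ℕ) : Differentiable ℂ (DN N) := by
  unfold DN
  apply Differentiable.fun_sum
  intro n hn
  have hn0 : (n : ℂ) ≠ 0 := by
    have := (Finset.mem_Icc.mp hn).1
    exact_mod_cast (by omega : n ≠ 0)
  intro s
  exact (differentiableAt_id.neg).const_cpow (Or.inl hn0)

theorem E_diffAt (N : ℕ) {s : ℂ} (hs : s.re < 1) : DifferentiableAt ℂ (E N) s := by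
  unfold E
  refine (differentiableAt_riemannZeta ?_).sub (DN_diff N s)
  rintro rfl
  simp at hs

theorem E_shift_diff (N : ℕ) (t : ℝ) : DifferentiableOn ℂ (fun w : ℂ => E N (w + t * I)) {w | w.re < 1} := by
  intro w hw
  have h : DifferentiableAt ℂ (E N) (w + t * I) := E_diffAt N (by simpa using hw)
  exact (h.comp w (f := fun w : ℂ => w + t * I) (by fun_prop)).differentiableWithinAt

theorem G_nonneg (a b B : ℝ) (N : ℕ) (t : ℝ) : 0 ≤ G a b B N t :=
  integral_nonneg fun _ => by positivity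

/-- the mean of `G` -/
theorem G_mean (a b B : ℝ) (h1 : 1 / 2 < a) (h2 : a ≤ b) (h3 : b < 1) (hB : 0 < B) (ε : ℝ) (hε : 0 < ε) :
    ∃ N : ℕ, Continuous (G a b B N) ∧ ∃ T0 : ℝ, 0 < T0 ∧ ∀ T ≥ T0, ∫ t in (0 : ℝ)..T, G a b B N t ≤ ε * T := by
  obtain ⟨κ, hκ⟩ : ∃ κ : ℝ, κ = ε / ((b - a) * (2 * B) + 1) := ⟨_, rfl⟩
  have hba : 0 ≤ (b - a) * (2 * B) := mul_nonneg (by linarith) (by linarith)
  have hκ0 : 0 < κ := by rw [hκ]; positivity
  obtain ⟨N, hN⟩ := zeta_meansq a b h1 h2 h3 B hB κ hκ0
  obtain ⟨T0, hT0, h⟩ := hN N le_rfl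
  have hcont : ContinuousOn (E N) {z : ℂ | a ≤ z.re ∧ z.re ≤ b} := by
    intro z hz
    exact (E_diffAt N (lt_of_le_of_lt hz.2 h3)).continuousAt.continuousWithinAt
  have key : ∀ T ≥ T0, Continuous (fun t : ℝ => ∫ w in rect a b B, ‖E N (w + t * I)‖ ^ 2) ∧
      ∫ t in (0 : ℝ)..T, (1 : ℝ) * (∫ w in rect a b B, ‖E N (w + t * I)‖ ^ 2) ≤ (b - a) * (2 * B) * (κ * T) := by
    intro T hT
    refine fubini_bound a b B h2 hB (E N) hcont (fun _ => 1) continuous_const T (by linarith) (κ * T) ?_
    rintro s ⟨hs1, hs2, hs3⟩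
    simp only [one_mul]
    have h4 := h T hT s.re ⟨hs1, hs2⟩
    have hcont2 : Continuous (fun u : ℝ => ‖E N ((s.re : ℂ) + u * I)‖ ^ 2) := by
      have : Continuous (fun u : ℝ => E N ((s.re : ℂ) + u * I)) := by
        rw [continuous_iff_continuousAt]
        intro u
        have h5 : ContinuousAt (E N) ((s.re : ℂ) + u * I) :=
          (E_diffAt N (by simpa using lt_of_le_of_lt hs2 h3)).continuousAt
        exact ContinuousAt.comp (f := fun u : ℝ => (s.re : ℂ) + u * I) h5 (by fun_prop)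
      exact this.norm.pow 2
    have e1 : ∫ t in (0 : ℝ)..T, ‖E N (s + t * I)‖ ^ 2 = ∫ u in (s.im)..(T + s.im), ‖E N ((s.re : ℂ) + u * I)‖ ^ 2 := by
      have := intervalIntegral.integral_comp_add_right (fun u : ℝ => ‖E N ((s.re : ℂ) + u * I)‖ ^ 2) s.im
        (a := 0) (b := T)
      rw [zero_add] at this
      rw [← this]
      congr 1
      ext t
      congr 3
      apply Complex.ext <;> simp [add_comm]
    rw [e1]
    rw [abs_le] at hs3
    calc ∫ u in (s.im)..(T + s.im), ‖E N ((s.re : ℂ) + u * I)‖ ^ 2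
        ≤ ∫ u in (-B)..(T + B), ‖E N ((s.re : ℂ) + u * I)‖ ^ 2 := by
          apply intervalIntegral.integral_mono_interval (by linarith [hs3.1]) (by linarith) (by linarith [hs3.2])
          · exact Filter.Eventually.of_forall fun _ => by positivity
          · exact hcont2.intervalIntegrable _ _
      _ ≤ κ * T := h4
  refine ⟨N, (key T0 le_rfl).1, T0, hT0, ?_⟩
  intro T hT
  have h5 := (key T hT).2
  simp only [one_mul] at h5
  refine h5.trans ?_
  have h6 : (b - a) * (2 * B) * κ ≤ ε := by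
    rw [hκ, mul_div_assoc']
    rw [div_le_iff₀ (by positivity)]
    nlinarith
  have hT1 : 0 ≤ T := by linarith
  calc (b - a) * (2 * B) * (κ * T) = ((b - a) * (2 * B) * κ) * T := by ring
    _ ≤ ε * T := by gcongr

/-- pointwise bound by the area mean, uniformly for the heights at distance at most one -/
theorem pt (a b a' b' B : ℝ) (h1 : a' < a) (h2 : a ≤ b) (h3 : b < b') (h4 : b' < 1) (hB : 0 < B) :
    ∃ C : ℝ, 0 < C ∧ ∀ (N : ℕ) (γ u : ℝ), |γ - u| ≤ 1 → ∀ z ∈ rect a b B,
      ‖E N (z + γ * I)‖ ^ 2 ≤ C * G a' b' (B + 2) N u := by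
  obtain ⟨C, hC, h⟩ := sup_le_area a b a' b' (B + 1) (B + 2) h1 h2 h3 (by linarith) (by linarith)
  refine ⟨C, hC, ?_⟩
  intro N γ u hu z hz
  have h5 := h (fun w : ℂ => E N (w + u * I)) {w | w.re < 1} (isOpen_lt Complex.continuous_re continuous_const) (by
    rintro w ⟨_, hw, _⟩
    exact lt_of_le_of_lt hw h4) (E_shift_diff N u) (z + (γ - u) * I) ?_
  · have e : z + (γ - u) * I + u * I = z + γ * I := by ring
    simp only [e] at h5
    exact h5
  · obtain ⟨hz1, hz2, hz3⟩ := hz
    refine ⟨by simpa using hz1, by simpa using hz2, ?_⟩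
    have : (z + ((γ : ℂ) - u) * I).im = z.im + (γ - u) := by simp
    rw [this]
    calc |z.im + (γ - u)| ≤ |z.im| + |γ - u| := abs_add_le _ _
      _ ≤ B + 1 := by linarith

/-- a height is bad if the Dirichlet polynomial is not close to zeta on the rectangle -/
def Bad (a b B δ : ℝ) (N : ℕ) (t : ℝ) : Prop := ∃ z ∈ rect a b B, δ ≤ ‖E N (z + t * I)‖

open Classical in
/-- few bad heights, and few zeros with a bad ordinate -/
theorem few_bad (a b B : ℝ) (h1 : 1 / 2 < a) (h2 : a ≤ b) (h3 : b < 1) (hB : 0 < B) (δ ε : ℝ) (hδ : 0 < δ) (hε : 0 < ε) :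
    ∃ N : ℕ, ∀ᶠ T : ℝ in atTop,
      volume {t : ℝ | t ∈ Icc T (2 * T) ∧ Bad a b B δ N t} ≤ ENNReal.ofReal (ε * T) ∧
      ∑ s ∈ (H370.Zf riemannZeta T (2 * T)).filter (fun s => Bad a b B δ N s.im), (H370.mult riemannZeta s : ℝ) ≤
        ε * T * Real.log T := by
  obtain ⟨C, hC, hpt⟩ := pt a b ((1 / 2 + a) / 2) ((b + 1) / 2) B (by linarith) h2 (by linarith) (by linarith) hB
  obtain ⟨C2, hC2, hloc⟩ := H370.local_sum H370.good_zeta
  obtain ⟨κ, hκ⟩ : ∃ κ : ℝ, κ = ε * δ ^ 2 / (4 * C * (1 + C2)) := ⟨_, rfl⟩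
  have hκ0 : 0 < κ := by rw [hκ]; positivity
  obtain ⟨N, hGc, T0, hT0, hG⟩ := G_mean ((1 / 2 + a) / 2) ((b + 1) / 2) (B + 2) (by linarith) (by linarith) (by linarith)
    (by linarith) κ hκ0
  refine ⟨N, ?_⟩
  filter_upwards [eventually_ge_atTop T0, eventually_ge_atTop 4] with T hT hT4
  set g := G ((1 / 2 + a) / 2) ((b + 1) / 2) (B + 2) N with hg
  have hg0 : ∀ t, 0 ≤ g t := fun t => G_nonneg _ _ _ _ _
  have hint : ∀ x y : ℝ, IntervalIntegrable g volume x y := fun x y => hGc.intervalIntegrable x y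
  constructor
  · -- the measure
    have hsub : {t : ℝ | t ∈ Icc T (2 * T) ∧ Bad a b B δ N t} ⊆ {t : ℝ | t ∈ Ioc 0 (2 * T) ∧ δ ^ 2 ≤ C * g t} := by
      rintro t ⟨ht, z, hz, hzt⟩
      refine ⟨⟨by linarith [ht.1], ht.2⟩, ?_⟩
      have := hpt N t t (by simp) z hz
      refine le_trans ?_ this
      gcongr
    refine (measure_mono hsub).trans ?_
    have hmeas : MeasurableSet {t : ℝ | t ∈ Ioc 0 (2 * T) ∧ δ ^ 2 ≤ C * g t} :=
      measurableSet_Ioc.inter (measurableSet_le measurable_const (hGc.measurable.const_mul C))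
    set S := {t : ℝ | t ∈ Ioc 0 (2 * T) ∧ δ ^ 2 ≤ C * g t} with hS
    have hSsub : S ⊆ Ioc 0 (2 * T) := fun t ht => ht.1
    have hfin : volume S < ⊤ := lt_of_le_of_lt (measure_mono hSsub) measure_Ioc_lt_top
    have h5 : δ ^ 2 * (volume S).toReal ≤ ∫ t in (0 : ℝ)..(2 * T), C * g t := by
      rw [intervalIntegral.integral_of_le (by linarith)]
      have hi : IntegrableOn (fun t => C * g t) (Ioc 0 (2 * T)) :=
        ((hint 0 (2 * T)).const_mul C).1
      calc δ ^ 2 * (volume S).toReal = ∫ t in S, δ ^ 2 := by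
            rw [setIntegral_const, smul_eq_mul, mul_comm]; rfl
        _ ≤ ∫ t in S, C * g t := by
            apply setIntegral_mono_on _ (hi.mono_set hSsub) hmeas
            · intro t ht; exact ht.2
            · exact integrableOn_const hfin.ne
        _ ≤ ∫ t in Ioc 0 (2 * T), C * g t := by
            apply setIntegral_mono_set hi
            · exact Filter.Eventually.of_forall fun t => mul_nonneg hC.le (hg0 t)
            · exact hSsub.eventuallyLE
    rw [intervalIntegral.integral_const_mul] at h5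
    have h6 := hG (2 * T) (by linarith)
    have h7 : δ ^ 2 * (volume S).toReal ≤ C * (κ * (2 * T)) := h5.trans (by gcongr)
    have h8 : (volume S).toReal ≤ ε * T := by
      have h9 : C * (κ * (2 * T)) ≤ δ ^ 2 * (ε * T) := by
        rw [hκ]
        have : C * (ε * δ ^ 2 / (4 * C * (1 + C2)) * (2 * T)) = δ ^ 2 * (ε * T) * (1 / (2 * (1 + C2))) := by
          field_simp
          ring
        rw [this]
        apply mul_le_of_le_one_right (by positivity)
        rw [div_le_one (by positivity)]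
        linarith
      have h10 := h7.trans h9
      exact le_of_mul_le_mul_left h10 (by positivity)
    rw [← ENNReal.ofReal_toReal hfin.ne]
    exact ENNReal.ofReal_le_ofReal h8
  · -- the zeros
    have hU : (1 : ℝ) ≤ T := by linarith
    set w : ℤ → ℝ := fun k => C * ∫ u in (k : ℝ)..(k + 1), g u with hw
    have hw0 : ∀ k, 0 ≤ w k := fun k => mul_nonneg hC.le
      (intervalIntegral.integral_nonneg (by linarith) fun u _ => hg0 u)
    have h5 := hloc T hT4 T (2 * T) le_rfl le_rfl 0 w hw0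
      (fun s => if Bad a b B δ N s.im then δ ^ 2 else 0) (by
        intro s hs
        split_ifs with hb
        · obtain ⟨z, hz, hzt⟩ := hb
          rw [sub_zero]
          have hk1 := Int.floor_le s.im
          have hk2 := Int.lt_floor_add_one s.im
          have h6 : ∀ u ∈ Icc ((⌊s.im⌋ : ℤ) : ℝ) (⌊s.im⌋ + 1), δ ^ 2 ≤ C * g u := by
            intro u hu
            have h7 := hpt N s.im u (by rw [abs_le]; constructor <;> linarith [hu.1, hu.2]) z hz
            refine le_trans ?_ h7
            gcongr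
          have h8 : ∫ u in ((⌊s.im⌋ : ℤ) : ℝ)..(⌊s.im⌋ + 1), δ ^ 2 ≤
              ∫ u in ((⌊s.im⌋ : ℤ) : ℝ)..(⌊s.im⌋ + 1), C * g u := by
            apply intervalIntegral.integral_mono_on (by linarith) (by simp) ((hint _ _).const_mul C)
            exact h6
          rw [intervalIntegral.integral_const, intervalIntegral.integral_const_mul] at h8
          simpa using h8
        · exact hw0 _)
    have h6 : ∑ s ∈ H370.Zf riemannZeta T (2 * T), (H370.mult riemannZeta s : ℝ) *
        (if Bad a b B δ N s.im then δ ^ 2 else 0) =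
        δ ^ 2 * ∑ s ∈ (H370.Zf riemannZeta T (2 * T)).filter (fun s => Bad a b B δ N s.im), (H370.mult riemannZeta s : ℝ) := by
      rw [Finset.sum_filter, Finset.mul_sum]
      apply Finset.sum_congr rfl
      intro s _
      split_ifs <;> ring
    rw [h6] at h5
    have hlog : 0 < Real.log T := Real.log_pos (by linarith)
    -- the sum of the integrals
    have h7 : ∑ k ∈ (H370.Zf riemannZeta T (2 * T)).image (fun s => ⌊s.im - 0⌋), w k ≤ C * (κ * (2 * T + 1)) := by
      set M : ℕ := ⌊2 * T⌋₊ + 1 with hM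
      have hMle : (M : ℝ) ≤ 2 * T + 1 := by
        rw [hM]; push_cast
        have := Nat.floor_le (by linarith : 0 ≤ 2 * T)
        linarith
      have hMge : 2 * T ≤ M := by
        rw [hM]; push_cast
        exact (Nat.lt_floor_add_one (2 * T)).le
      have hsub : (H370.Zf riemannZeta T (2 * T)).image (fun s => ⌊s.im - 0⌋) ⊆
          (Finset.range M).map ⟨(Nat.cast : ℕ → ℤ), Nat.cast_injective⟩ := by
        intro k hk
        rw [Finset.mem_image] at hk
        obtain ⟨s, hs, rfl⟩ := hk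
        rw [H370.mem_Zf H370.good_zeta hU] at hs
        obtain ⟨_, _, hs3, hs4, _⟩ := hs
        rw [Finset.mem_map]
        refine ⟨⌊s.im⌋₊, ?_, ?_⟩
        · rw [Finset.mem_range, hM]
          exact Nat.lt_succ_of_le (Nat.floor_le_floor hs4)
        · rw [sub_zero]
          simp only [Function.Embedding.coeFn_mk]
          exact Int.natCast_floor_eq_floor (by linarith)
      calc ∑ k ∈ (H370.Zf riemannZeta T (2 * T)).image (fun s => ⌊s.im - 0⌋), w k
          ≤ ∑ k ∈ (Finset.range M).map ⟨(Nat.cast : ℕ → ℤ), Nat.cast_injective⟩, w k :=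
            Finset.sum_le_sum_of_subset_of_nonneg hsub fun k _ _ => hw0 k
        _ = ∑ n ∈ Finset.range M, w (n : ℤ) := by rw [Finset.sum_map]; rfl
        _ = C * ∑ n ∈ Finset.range M, ∫ u in (n : ℝ)..((n + 1 : ℕ) : ℝ), g u := by
            rw [Finset.mul_sum]
            apply Finset.sum_congr rfl
            intro n _
            rw [hw]
            simp
        _ = C * ∫ u in ((0 : ℕ) : ℝ)..(M : ℝ), g u := by
            rw [intervalIntegral.sum_integral_adjacent_intervals (a := fun n : ℕ => (n : ℝ)) fun k _ => hint _ _]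
        _ ≤ C * (κ * M) := by
            have := hG M (by linarith)
            rw [Nat.cast_zero]
            gcongr
        _ ≤ C * (κ * (2 * T + 1)) := by gcongr
    have h8 : δ ^ 2 * ∑ s ∈ (H370.Zf riemannZeta T (2 * T)).filter (fun s => Bad a b B δ N s.im), (H370.mult riemannZeta s : ℝ) ≤
        C2 * Real.log T * (C * (κ * (2 * T + 1))) := h5.trans (by gcongr)
    have h9 : C2 * Real.log T * (C * (κ * (2 * T + 1))) ≤ δ ^ 2 * (ε * T * Real.log T) := by
      have e1 : C2 * Real.log T * (C * (κ * (2 * T + 1))) = δ ^ 2 * (ε * Real.log T) * ((2 * T + 1) / 4 * (C2 / (1 + C2))) := by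
        rw [hκ]; field_simp
      rw [e1]
      have e2 : (2 * T + 1) / 4 * (C2 / (1 + C2)) ≤ T := by
        have : C2 / (1 + C2) ≤ 1 := by rw [div_le_one (by positivity)]; linarith
        calc (2 * T + 1) / 4 * (C2 / (1 + C2)) ≤ (2 * T + 1) / 4 * 1 := by gcongr
          _ ≤ T := by linarith
      calc δ ^ 2 * (ε * Real.log T) * ((2 * T + 1) / 4 * (C2 / (1 + C2))) ≤ δ ^ 2 * (ε * Real.log T) * T := by gcongr
        _ = δ ^ 2 * (ε * T * Real.log T) := by ring
    exact le_of_mul_le_mul_left (h8.trans h9) (by positivity)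

end Pool.Agent.H510.UZ
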