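import Pool.Agent.H510.UZ.Val
import Pool.Graph.R_seed8.H370R2.Dyadic

/-!
From the dyadic intervals `(T, 2T]` to `(0, T]`, in terms of sets of zeros.
-/

set_option autoImplicit false

open Complex Filter Topology MeasureTheory
open Pool.Agent.Q97.UM (dp N2 ZI mz)

namespace Pool.Agent.H510.UZ

noncomputable section

/-- the nontrivial zeros of zeta with ordinate in `(a, b]` -/
def zeros (a b : ℝ) : Set ℂ := {s : ℂ | riemannZeta s = 0 ∧ 0 < s.re ∧ s.re < 1 ∧ a < s.im ∧ s.im ≤ b}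

/-- the `γ` in `(a, b]` for which `1/2 + iγ` is a simple zero of zeta at distance at least `r` from every other nontrivial zero -/
def SI (r a b : ℝ) : Set ℝ :=
  {γ : ℝ | a < γ ∧ γ ≤ b ∧ riemannZeta (1 / 2 + γ * I) = 0 ∧ deriv riemannZeta (1 / 2 + γ * I) ≠ 0 ∧
    ∀ ρ : ℂ, riemannZeta ρ = 0 → 0 < ρ.re → ρ.re < 1 → ρ ≠ 1 / 2 + γ * I → r ≤ ‖ρ - (1 / 2 + γ * I)‖}

/-- the measure of the heights in `(a, b]` with a property -/
def Ms (a b : ℝ) (P : ℝ → Prop) : ℝ := (volume {t : ℝ | t ∈ Set.Ioc a b ∧ P t}).toReal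

/-- the number of the nontrivial zeros, with multiplicity, whose ordinates are in `(a, b]` and have a property -/
def NM (a b : ℝ) (P : ℝ → Prop) : ℝ := ∑ᶠ s ∈ {s ∈ zeros a b | P s.im}, (analyticOrderNatAt riemannZeta s : ℝ)

theorem zeros_eq (a b : ℝ) : zeros a b = H370.zset riemannZeta a b := by
  ext s
  simp only [zeros, H370.zset, Set.mem_ofPred_eq]
  tauto

theorem zeros_finite (a b : ℝ) (ha : 0 ≤ a) : (zeros a b).Finite := by
  refine (H370.zeta_zeros_finite b).subset ?_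
  rw [← zeros_eq]
  rintro s ⟨h1, h2, h3, h4, h5⟩
  exact ⟨h1, h2, h3, by linarith, h5⟩

theorem line_inj : Function.Injective fun t : ℝ => (1 / 2 + t * I : ℂ) := by
  intro a b hab
  have := congrArg Complex.im hab
  simpa using this

theorem point (γ : ℝ) : (1 / 2 + γ * I : ℂ).re = 1 / 2 ∧ (1 / 2 + γ * I : ℂ).im = γ := by
  constructor <;> simp

theorem SI_finite (r a b : ℝ) (ha : 0 ≤ a) : (SI r a b).Finite := by
  refine Set.Finite.of_finite_image ((zeros_finite a b ha).subset ?_) line_inj.injOn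
  rintro s ⟨t, ⟨h1, h2, h3, h4, -⟩, rfl⟩
  refine ⟨h3, ?_, ?_, ?_, ?_⟩ <;> simp <;> first | assumption | norm_num

open Classical in
theorem ZI_card {d T : ℝ} (h : 16 ≤ T) (hd : d ≤ 1) (P : ℝ → Prop) :
    (((ZI d T).filter fun s => P s.im).card : ℝ) = (({γ ∈ SI (d / Real.log T) T (2 * T) | P γ}.ncard : ℕ) : ℝ) := by
  have hset : (((ZI d T).filter fun s => P s.im : Finset ℂ) : Set ℂ) =
      (fun γ : ℝ => (1 / 2 + γ * I : ℂ)) '' {γ ∈ SI (d / Real.log T) T (2 * T) | P γ} := by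
    ext s
    rw [Finset.mem_coe, Finset.mem_filter, Pool.Agent.Q97.UM.mem_ZI_iff h hd]
    simp only [Set.mem_image]
    constructor
    · rintro ⟨⟨h1, h2, h3, h4, h5, h6⟩, h7⟩
      have hs : (1 / 2 + s.im * I : ℂ) = s := by
        apply Complex.ext
        · simp [h1]
        · simp
      refine ⟨s.im, ⟨⟨h2, h3, ?_, ?_, ?_⟩, h7⟩, hs⟩
      · rw [hs]; exact h4
      · rw [hs]; exact h5
      · rw [hs]; exact h6
    · rintro ⟨γ, ⟨⟨h1, h2, h3, h4, h5⟩, h6⟩, rfl⟩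
      refine ⟨⟨(point γ).1, by rw [(point γ).2]; exact h1, by rw [(point γ).2]; exact h2, h3, h4, h5⟩, ?_⟩
      rw [(point γ).2]; exact h6
  rw [← Set.ncard_image_of_injective _ line_inj, ← hset, Set.ncard_coe_finset]

open Classical in
theorem left_card {T : ℝ} (h : 1 ≤ T) (P : ℝ → Prop) :
    ((((H370.Zf riemannZeta T (2 * T)).filter fun s => s.re ≤ 1 / 2).filter fun s => P s.im).card : ℝ) =
      (({s ∈ zeros T (2 * T) | s.re ≤ 1 / 2 ∧ P s.im}.ncard : ℕ) : ℝ) := by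
  rw [← Set.ncard_coe_finset]
  congr 2
  ext s
  rw [Finset.mem_coe, Finset.mem_filter, Finset.mem_filter, H370.mem_Zf H370.good_zeta h, ← zeros_eq]
  simp only [Set.mem_ofPred_eq]
  tauto

open Classical in
theorem NM_eq {a b : ℝ} (ha : 1 ≤ a) (P : ℝ → Prop) :
    NM a b P = ∑ s ∈ (H370.Zf riemannZeta a b).filter fun s => P s.im, (mz s : ℝ) := by
  unfold NM
  rw [← finsum_mem_coe_finset]
  have : (((H370.Zf riemannZeta a b).filter fun s => P s.im : Finset ℂ) : Set ℂ) = {s ∈ zeros a b | P s.im} := by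
    ext s
    rw [Finset.mem_coe, Finset.mem_filter, H370.mem_Zf H370.good_zeta ha, ← zeros_eq]
    rfl
  rw [this]
  rfl

theorem V_eq (T : ℝ) (P : ℝ → Prop) : V T P = Ms T (2 * T) P := by
  unfold V Ms
  congr 1
  apply le_antisymm
  · have : {t : ℝ | t ∈ Set.Icc T (2 * T) ∧ P t} ⊆ {t : ℝ | t ∈ Set.Ioc T (2 * T) ∧ P t} ∪ {T} := by
      rintro t ⟨⟨h1, h2⟩, h3⟩
      rcases h1.lt_or_eq with h4 | h4
      · exact Or.inl ⟨⟨h4, h2⟩, h3⟩
      · exact Or.inr h4.symm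
    refine (measure_mono this).trans ((measure_union_le _ _).trans ?_)
    simp
  · apply measure_mono
    rintro t ⟨⟨h1, h2⟩, h3⟩
    exact ⟨⟨h1.le, h2⟩, h3⟩

theorem Ms_fin (a b : ℝ) (P : ℝ → Prop) : volume {t : ℝ | t ∈ Set.Ioc a b ∧ P t} ≠ ⊤ := by
  refine ne_top_of_le_ne_top ?_ (measure_mono (t := Set.Ioc a b) fun t ht => ht.1)
  exact measure_Ioc_lt_top.ne

theorem Ms_nonneg (a b : ℝ) (P : ℝ → Prop) : 0 ≤ Ms a b P := ENNReal.toReal_nonneg

theorem Ms_le (a b : ℝ) (hab : a ≤ b) (P : ℝ → Prop) : Ms a b P ≤ b - a := by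
  unfold Ms
  have h := measure_mono (μ := volume) (s := {t : ℝ | t ∈ Set.Ioc a b ∧ P t}) (t := Set.Ioc a b) fun t ht => ht.1
  have h2 := ENNReal.toReal_mono measure_Ioc_lt_top.ne h
  rwa [Real.volume_Ioc, ENNReal.toReal_ofReal (by linarith)] at h2

/-- additivity -/
theorem Ms_add (a b c : ℝ) (h1 : a ≤ b) (h2 : b ≤ c) (P : ℝ → Prop) : Ms a c P = Ms a b P + Ms b c P := by
  unfold Ms
  rw [← ENNReal.toReal_add (Ms_fin a b P) (Ms_fin b c P)]
  congr 1
  have h := measure_inter_add_sdiff (μ := volume) {t : ℝ | t ∈ Set.Ioc a c ∧ P t} (measurableSet_Iic (a := b))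
  rw [← h]
  congr 2
  · ext t
    simp only [Set.mem_inter_iff, Set.mem_ofPred_eq, Set.mem_Ioc, Set.mem_Iic]
    constructor
    · rintro ⟨⟨⟨h3, h4⟩, h5⟩, h6⟩
      exact ⟨⟨h3, h6⟩, h5⟩
    · rintro ⟨⟨h3, h4⟩, h5⟩
      exact ⟨⟨⟨h3, by linarith⟩, h5⟩, h4⟩
  · ext t
    simp only [Set.mem_sdiff, Set.mem_ofPred_eq, Set.mem_Ioc, Set.mem_Iic, not_le]
    constructor
    · rintro ⟨⟨⟨h3, h4⟩, h5⟩, h6⟩
      exact ⟨⟨h6, h4⟩, h5⟩
    · rintro ⟨⟨h3, h4⟩, h5⟩
      exact ⟨⟨⟨by linarith, h4⟩, h5⟩, h3⟩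

theorem SI_add (r r' a b c : ℝ) (ha : 0 ≤ a) (h1 : a ≤ b) (h2 : b ≤ c) (hr : r ≤ r') (Q : ℝ → Prop) :
    {γ ∈ SI r' a b | Q γ}.ncard + {γ ∈ SI r b c | Q γ}.ncard ≤ {γ ∈ SI r a c | Q γ}.ncard := by
  have hf1 : {γ ∈ SI r' a b | Q γ}.Finite := (SI_finite r' a b ha).subset fun _ h => h.1
  have hf2 : {γ ∈ SI r b c | Q γ}.Finite := (SI_finite r b c (ha.trans h1)).subset fun _ h => h.1
  rw [← Set.ncard_union_eq _ hf1 hf2]
  · refine Set.ncard_le_ncard ?_ ((SI_finite r a c ha).subset fun _ h => h.1)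
    rintro γ (⟨⟨h3, h4, h5, h6, h7⟩, h8⟩ | ⟨⟨h3, h4, h5, h6, h7⟩, h8⟩)
    · exact ⟨⟨h3, by linarith, h5, h6, fun ρ k1 k2 k3 k4 => hr.trans (h7 ρ k1 k2 k3 k4)⟩, h8⟩
    · exact ⟨⟨by linarith, h4, h5, h6, h7⟩, h8⟩
  · rw [Set.disjoint_left]
    rintro γ ⟨⟨_, h4, _⟩, _⟩ ⟨⟨h3, _⟩, _⟩
    linarith

theorem NM_add (a b c : ℝ) (ha : 0 ≤ a) (h1 : a ≤ b) (h2 : b ≤ c) (Q : ℝ → Prop) : NM a c Q = NM a b Q + NM b c Q := by
  unfold NM
  rw [← finsum_mem_union]
  · apply congrArg (fun S : Set ℂ => ∑ᶠ s ∈ S, (analyticOrderNatAt riemannZeta s : ℝ))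
    ext s
    simp only [zeros, Set.mem_union, Set.mem_ofPred_eq]
    constructor
    · rintro ⟨⟨h3, h4, h5, h6, h7⟩, h8⟩
      rcases le_or_gt s.im b with h9 | h9
      · exact Or.inl ⟨⟨h3, h4, h5, h6, h9⟩, h8⟩
      · exact Or.inr ⟨⟨h3, h4, h5, h9, h7⟩, h8⟩
    · rintro (⟨⟨h3, h4, h5, h6, h7⟩, h8⟩ | ⟨⟨h3, h4, h5, h6, h7⟩, h8⟩)
      · exact ⟨⟨h3, h4, h5, h6, by linarith⟩, h8⟩
      · exact ⟨⟨h3, h4, h5, by linarith, h7⟩, h8⟩
  · rw [Set.disjoint_left]
    rintro s ⟨⟨_, _, _, _, h4⟩, _⟩ ⟨⟨_, _, _, h3, _⟩, _⟩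
    linarith
  · exact (zeros_finite a b ha).subset fun _ h => h.1
  · exact (zeros_finite b c (ha.trans h1)).subset fun _ h => h.1

theorem NM_nonneg (a b : ℝ) (Q : ℝ → Prop) : 0 ≤ NM a b Q :=
  finsum_nonneg fun _ => finsum_nonneg fun _ => Nat.cast_nonneg _

theorem NM_mono (a b : ℝ) (ha : 0 ≤ a) (P Q : ℝ → Prop) (h : ∀ t, P t → Q t) : NM a b P ≤ NM a b Q := by
  unfold NM
  have hf : {s ∈ zeros a b | Q s.im}.Finite := (zeros_finite a b ha).subset fun _ h => h.1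
  have hf2 : {s ∈ zeros a b | P s.im}.Finite := (zeros_finite a b ha).subset fun _ h => h.1
  rw [finsum_mem_eq_finite_toFinset_sum _ hf, finsum_mem_eq_finite_toFinset_sum _ hf2]
  apply Finset.sum_le_sum_of_subset_of_nonneg
  · intro s hs
    rw [Set.Finite.mem_toFinset] at hs ⊢
    exact ⟨hs.1, h _ hs.2⟩
  · intro _ _ _
    exact Nat.cast_nonneg _

/-- summation over dyadic intervals, lower bounds -/
theorem dy_low (α ε d T₀ : ℝ) (hα : 0 ≤ α) (hε : 0 ≤ ε) (hd : 0 ≤ d) (hT₀ : 16 ≤ T₀) (P Q : ℝ → Prop)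
    (h : ∀ T ≥ T₀, α * (Real.log T / (2 * Real.pi) * Ms T (2 * T) P) - ε * T * Real.log T ≤
      (({γ ∈ SI (d / Real.log T) T (2 * T) | Q γ}.ncard : ℕ) : ℝ)) (U : ℝ) :
    ∀ J : ℕ, T₀ ≤ U / 2 ^ J → α * (Real.log (U / 2 ^ J) / (2 * Real.pi) * Ms (U / 2 ^ J) U P) -
      ε * (U - U / 2 ^ J) * Real.log U ≤ (({γ ∈ SI (d / Real.log U) (U / 2 ^ J) U | Q γ}.ncard : ℕ) : ℝ) := by
  intro J
  induction J with
  | zero =>
    intro _
    have : Ms (U / 2 ^ 0) U P = 0 := by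
      unfold Ms
      simp
    rw [this]
    simp
  | succ J ih =>
    intro hJ
    set a := U / 2 ^ (J + 1) with ha
    have hb : U / 2 ^ J = 2 * a := by rw [ha, pow_succ]; field_simp
    have ha0 : 0 < a := by linarith
    have hU : a ≤ U := by
      have hU0 : 0 < U := by
        by_contra hneg
        push Not at hneg
        have : a ≤ 0 := div_nonpos_of_nonpos_of_nonneg hneg (by positivity)
        linarith
      rw [ha]
      exact div_le_self hU0.le (one_le_pow₀ (by norm_num))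
    have hU2 : 2 * a ≤ U := by
      rw [← hb]
      have hU0 : 0 < U := by linarith
      exact div_le_self hU0.le (one_le_pow₀ (by norm_num))
    have ih' := ih (by rw [hb]; linarith)
    rw [hb] at ih'
    have h1 := h a hJ
    have hla : 0 < Real.log a := Real.log_pos (by linarith)
    have hlau : Real.log a ≤ Real.log U := Real.log_le_log ha0 hU
    have hlb : Real.log a ≤ Real.log (2 * a) := Real.log_le_log ha0 (by linarith)
    have h2 := SI_add (d / Real.log U) (d / Real.log a) a (2 * a) U ha0.le (by linarith) hU2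
      (div_le_div_of_nonneg_left hd hla hlau) Q
    have h3 : (({γ ∈ SI (d / Real.log a) a (2 * a) | Q γ}.ncard : ℕ) : ℝ) +
        (({γ ∈ SI (d / Real.log U) (2 * a) U | Q γ}.ncard : ℕ) : ℝ) ≤
        (({γ ∈ SI (d / Real.log U) a U | Q γ}.ncard : ℕ) : ℝ) := by exact_mod_cast h2
    rw [Ms_add a (2 * a) U (by linarith) hU2 P]
    have hpi := Real.pi_pos
    have h4 : α * (Real.log a / (2 * Real.pi) * Ms (2 * a) U P) ≤ α * (Real.log (2 * a) / (2 * Real.pi) * Ms (2 * a) U P) := by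
      have := Ms_nonneg (2 * a) U P
      gcongr
    have h5 : ε * a * Real.log a ≤ ε * a * Real.log U := by gcongr
    nlinarith
  
/-- summation over dyadic intervals, upper bounds -/
theorem dy_up (ε T₀ : ℝ) (hε : 0 ≤ ε) (hT₀ : 16 ≤ T₀) (w : ℝ) (hw : 0 ≤ w) (P Q : ℝ → Prop)
    (h : ∀ T ≥ T₀, NM T (2 * T) Q ≤ w * (Real.log T * Ms T (2 * T) P) + ε * T * Real.log T) (U : ℝ) :
    ∀ J : ℕ, T₀ ≤ U / 2 ^ J → NM (U / 2 ^ J) U Q ≤ w * (Real.log U * Ms (U / 2 ^ J) U P) +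
      ε * (U - U / 2 ^ J) * Real.log U := by
  intro J
  induction J with
  | zero =>
    intro _
    have e1 : Ms (U / 2 ^ 0) U P = 0 := by
      unfold Ms
      simp
    have e2 : NM (U / 2 ^ 0) U Q = 0 := by
      unfold NM
      have : {s ∈ zeros (U / 2 ^ 0) U | Q s.im} = ∅ := by
        ext s
        simp only [zeros, pow_zero, div_one, Set.mem_ofPred_eq, Set.mem_empty_iff_false, iff_false]
        rintro ⟨⟨_, _, _, h4, h5⟩, _⟩
        linarith
      rw [this]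
      simp
    rw [e1, e2]
    simp
  | succ J ih =>
    intro hJ
    set a := U / 2 ^ (J + 1) with ha
    have hb : U / 2 ^ J = 2 * a := by rw [ha, pow_succ]; field_simp
    have ha0 : 0 < a := by linarith
    have hU : a ≤ U := by
      have hU0 : 0 < U := by
        by_contra hneg
        push Not at hneg
        have : a ≤ 0 := div_nonpos_of_nonpos_of_nonneg hneg (by positivity)
        linarith
      rw [ha]
      exact div_le_self hU0.le (one_le_pow₀ (by norm_num))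
    have hU2 : 2 * a ≤ U := by
      rw [← hb]
      have hU0 : 0 < U := by linarith
      exact div_le_self hU0.le (one_le_pow₀ (by norm_num))
    have ih' := ih (by rw [hb]; linarith)
    rw [hb] at ih'
    have h1 := h a hJ
    have hla : 0 < Real.log a := Real.log_pos (by linarith)
    have hlau : Real.log a ≤ Real.log U := Real.log_le_log ha0 hU
    rw [Ms_add a (2 * a) U (by linarith) hU2 P, NM_add a (2 * a) U ha0.le (by linarith) hU2 Q]
    have h4 : w * (Real.log a * Ms a (2 * a) P) ≤ w * (Real.log U * Ms a (2 * a) P) := by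
      have := Ms_nonneg a (2 * a) P
      gcongr
    have h5 : ε * a * Real.log a ≤ ε * a * Real.log U := by gcongr
    nlinarith

end

end Pool.Agent.H510.UZ
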