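import Pool.Agent.H510.UZ.Glob2
import Pool.Graph.R_seed8.Helper240.ZU.B2

/-!
Self-approximation at the simple zeros and the zeros to the right of a line.
-/

set_option autoImplicit false

open Complex Filter Topology MeasureTheory Set ZU
open Pool.Agent.Q97.UM (dp N2 ZI mz)

namespace Pool.Agent.H510.UZ

noncomputable section

/-- zeta times the Euler factors, minus one -/
def RR (M : ℕ) (s : ℂ) : ℂ := riemannZeta s * EM M (fun _ => 1) s - 1

theorem EM_diff (M : ℕ) : Differentiable ℂ (EM M (fun _ => 1)) := by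
  unfold EM
  apply Differentiable.fun_finsetProd
  intro p hp
  have hp0 : (p : ℂ) ≠ 0 := by
    have : p.Prime := (Finset.mem_filter.1 hp).2
    exact_mod_cast this.ne_zero
  intro s
  exact (differentiableAt_const _).sub ((differentiableAt_const _).mul ((differentiableAt_id.neg).const_cpow (Or.inl hp0)))

theorem RR_diffAt (M : ℕ) {s : ℂ} (hs : s.re < 1) : DifferentiableAt ℂ (RR M) s := by
  unfold RR
  refine ((differentiableAt_riemannZeta ?_).mul (EM_diff M s)).sub (differentiableAt_const _)
  rintro rfl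
  simp at hs

theorem RR_shift_diff (M : ℕ) (t : ℝ) : DifferentiableOn ℂ (fun w : ℂ => RR M (w + t * I)) {w | w.re < 1} := by
  intro w hw
  have h : DifferentiableAt ℂ (RR M) (w + t * I) := RR_diffAt M (by simpa using hw)
  exact (h.comp w (f := fun w : ℂ => w + t * I) (by fun_prop)).differentiableWithinAt

/-- few heights at which a rectangle contains a zero -/
theorem zero_measure (a b B : ℝ) (h1 : 1 / 2 < a) (h2 : a ≤ b) (h3 : b < 1) (hB : 0 < B) (ε : ℝ) (hε : 0 < ε) :
    ∀ᶠ U : ℝ in atTop, Ms 0 U (fun t => ∃ z ∈ rect a b B, riemannZeta (z + t * I) = 0) ≤ ε * U := by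
  set a' := (1 / 2 + a) / 2 with ha'
  set b' := (b + 1) / 2 with hb'
  have ha1 : 1 / 2 < a' := by rw [ha']; linarith
  have ha2 : a' < a := by rw [ha']; linarith
  have hb1 : b < b' := by rw [hb']; linarith
  have hb2 : b' < 1 := by rw [hb']; linarith
  obtain ⟨C, hC, hpt⟩ := sup_le_area a b a' b' B (B + 1) ha2 h2 hb1 hB (by linarith)
  set A := (b' - a') * (2 * (B + 1)) with hA
  have hA0 : 0 < A := by
    rw [hA]
    apply mul_pos (by linarith) (by linarith)
  obtain ⟨κ, hκ⟩ : ∃ κ : ℝ, κ = ε / (2 * C * A) := ⟨_, rfl⟩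
  have hκ0 : 0 < κ := by rw [hκ]; positivity
  have htail := (tail_tendsto a' ha1).1
  obtain ⟨M, hM⟩ := (htail.eventually (gt_mem_nhds (show (0 : ℝ) < κ / 4 by positivity))).exists
  obtain ⟨T0, hT0, hmv⟩ := rough_mv a' b' ha1 (by linarith) hb2 (B + 1) (by linarith) M {1} (by
    intro n hn
    rw [Finset.mem_singleton] at hn
    subst hn
    refine ⟨le_rfl, ?_⟩
    intro p hp hp1
    exact absurd (Nat.dvd_one.1 hp1) hp.one_lt.ne') (fun _ => 1) (by simp) κ hκ0
  have hDir : ∀ t : ℝ, ‖Dir {1} (fun _ => (1 : ℂ)) t‖ = 1 := by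
    intro t
    simp [Dir]
  filter_upwards [eventually_ge_atTop T0] with U hU
  have hU0 : 0 < U := by linarith
  have hcontR : ContinuousOn (RR M) {z : ℂ | a' ≤ z.re ∧ z.re ≤ b'} := by
    intro z hz
    exact (RR_diffAt M (lt_of_le_of_lt hz.2 hb2)).continuousAt.continuousWithinAt
  obtain ⟨hgc, hgi⟩ := fubini_bound a' b' (B + 1) (by linarith) (by linarith) (RR M) hcontR (fun _ => 1)
    continuous_const U hU0.le (U * (2 * κ)) (by
      intro s hs
      have h5 := hmv U hU s hs
      simp only [hDir, one_pow, one_mul, Finset.card_singleton, Nat.cast_one] at h5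
      simp only [one_mul]
      refine h5.trans ?_
      apply mul_le_mul_of_nonneg_left _ hU0.le
      linarith)
  set g : ℝ → ℝ := fun t => ∫ w in rect a' b' (B + 1), ‖RR M (w + t * I)‖ ^ 2 with hg
  have hg0 : ∀ t, 0 ≤ g t := fun t => integral_nonneg fun _ => by positivity
  simp only [one_mul] at hgi
  have hsub : {t : ℝ | t ∈ Ioc 0 U ∧ ∃ z ∈ rect a b B, riemannZeta (z + t * I) = 0} ⊆
      {t : ℝ | t ∈ Ioc 0 U ∧ 1 ≤ C * g t} := by
    rintro t ⟨ht, z, hz, hzt⟩
    refine ⟨ht, ?_⟩
    have h5 := hpt (fun w : ℂ => RR M (w + t * I)) {w | w.re < 1} (isOpen_lt Complex.continuous_re continuous_const) (by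
      rintro w ⟨_, hw, _⟩
      exact lt_of_le_of_lt hw hb2) (RR_shift_diff M t) z hz
    have h6 : RR M (z + t * I) = -1 := by
      unfold RR
      rw [hzt]; ring
    simp only [h6] at h5
    simpa using h5
  have hmeas : MeasurableSet {t : ℝ | t ∈ Ioc 0 U ∧ 1 ≤ C * g t} :=
    measurableSet_Ioc.inter (measurableSet_le measurable_const (hgc.measurable.const_mul C))
  set S := {t : ℝ | t ∈ Ioc 0 U ∧ 1 ≤ C * g t} with hS
  have hSsub : S ⊆ Ioc 0 U := fun t ht => ht.1
  have hfin : volume S < ⊤ := lt_of_le_of_lt (measure_mono hSsub) measure_Ioc_lt_top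
  have h5 : (volume S).toReal ≤ ∫ t in (0 : ℝ)..U, C * g t := by
    rw [intervalIntegral.integral_of_le hU0.le]
    have hi : IntegrableOn (fun t => C * g t) (Ioc 0 U) := ((hgc.intervalIntegrable 0 U).const_mul C).1
    calc (volume S).toReal = ∫ t in S, (1 : ℝ) := by
          rw [setIntegral_const, smul_eq_mul, mul_one]; rfl
      _ ≤ ∫ t in S, C * g t := by
          apply setIntegral_mono_on _ (hi.mono_set hSsub) hmeas
          · intro t ht; exact ht.2
          · exact integrableOn_const hfin.ne
      _ ≤ ∫ t in Ioc 0 U, C * g t := by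
          apply setIntegral_mono_set hi
          · exact Filter.Eventually.of_forall fun t => mul_nonneg hC.le (hg0 t)
          · exact hSsub.eventuallyLE
  rw [intervalIntegral.integral_const_mul] at h5
  have h7 : Ms 0 U (fun t => ∃ z ∈ rect a b B, riemannZeta (z + t * I) = 0) ≤ (volume S).toReal :=
    ENNReal.toReal_mono hfin.ne (measure_mono hsub)
  refine h7.trans (h5.trans ?_)
  calc C * ∫ t in (0 : ℝ)..U, g t ≤ C * (A * (U * (2 * κ))) := by
        gcongr
    _ = ε * U := by rw [hκ]; field_simp

/-- a zero of zeta forces zeros near the heights of self-approximation -/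
theorem zero_of_near (s0 : ℂ) (hs : riemannZeta s0 = 0) (K : Set ℂ) (hK : K ∈ 𝓝 s0) (hK1 : ∀ z ∈ K, z.re < 1) :
    ∃ η : ℝ, 0 < η ∧ ∀ t : ℝ, Near K {riemannZeta} η t → ∃ z ∈ K, riemannZeta (z + t * I) = 0 := by
  have hs1 : s0.re < 1 := hK1 s0 (mem_of_mem_nhds hK)
  have hs1' : s0 ≠ 1 := by rintro rfl; simp at hs1
  -- isolated zero
  have han : AnalyticAt ℂ riemannZeta s0 := by
    have : AnalyticOnNhd ℂ riemannZeta {1}ᶜ := by
      apply DifferentiableOn.analyticOnNhd _ isOpen_compl_singleton
      intro z hz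
      exact (differentiableAt_riemannZeta hz).differentiableWithinAt
    exact this s0 hs1'
  have hiso : ∀ᶠ z in 𝓝[≠] s0, riemannZeta z ≠ 0 := by
    rcases han.eventually_eq_zero_or_eventually_ne_zero with h | h
    · exfalso
      have hA : AnalyticOnNhd ℂ riemannZeta {1}ᶜ := by
        apply DifferentiableOn.analyticOnNhd _ isOpen_compl_singleton
        intro z hz
        exact (differentiableAt_riemannZeta hz).differentiableWithinAt
      have hpre : IsPreconnected ({1}ᶜ : Set ℂ) :=
        (isConnected_compl_singleton_of_one_lt_rank (by simp) 1).isPreconnected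
      have h2 := hA.eqOn_zero_of_preconnected_of_eventuallyEq_zero hpre hs1' h
      have h3 : riemannZeta 2 = 0 := h2 (by norm_num)
      exact riemannZeta_ne_zero_of_one_le_re (by norm_num) h3
    · exact h
  rw [eventually_nhdsWithin_iff] at hiso
  obtain ⟨r1, hr1, hball⟩ := Metric.mem_nhds_iff.1 (Filter.inter_mem hK hiso)
  set r := r1 / 2 with hr
  have hr0 : 0 < r := by positivity
  have hcb : Metric.closedBall s0 r ⊆ Metric.ball s0 r1 := Metric.closedBall_subset_ball (by rw [hr]; linarith)
  have hsp : IsCompact (Metric.sphere s0 r) := isCompact_sphere s0 r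
  have hne : (Metric.sphere s0 r).Nonempty := NormedSpace.sphere_nonempty.2 hr0.le
  have hcont : ContinuousOn (fun z => ‖riemannZeta z‖) (Metric.sphere s0 r) := by
    intro z hz
    have hz1 : z ∈ Metric.ball s0 r1 := hcb (Metric.sphere_subset_closedBall hz)
    have hz2 : z.re < 1 := hK1 z (hball hz1).1
    have : z ≠ 1 := by rintro rfl; simp at hz2
    exact (differentiableAt_riemannZeta this).continuousAt.norm.continuousWithinAt
  obtain ⟨z1, hz1, hmin⟩ := hsp.exists_isMinOn hne hcont
  set m := ‖riemannZeta z1‖ with hm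
  have hm0 : 0 < m := by
    rw [hm, norm_pos_iff]
    have h4 : z1 ∈ Metric.ball s0 r1 := hcb (Metric.sphere_subset_closedBall hz1)
    apply (hball h4).2
    intro h5
    rw [mem_singleton_iff] at h5
    subst h5
    simp at hz1
    linarith
  refine ⟨m / 2, by positivity, ?_⟩
  rintro t ⟨f, hf, r', hr', hnear⟩
  rw [mem_singleton_iff] at hf
  subst hf
  by_contra hcon
  push Not at hcon
  -- max modulus for the inverse
  have hK' : ∀ z ∈ Metric.ball s0 r1, z ∈ K := fun z hz => (hball hz).1
  have hdiff : DifferentiableOn ℂ (fun z => (riemannZeta (z + t * I))⁻¹) (Metric.ball s0 r1) := by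
    intro z hz
    have h6 : (z + t * I).re < 1 := by simpa using hK1 z (hK' z hz)
    have h7 : z + t * I ≠ 1 := by intro h; rw [h] at h6; simp at h6
    have h8 : DifferentiableAt ℂ (fun z : ℂ => riemannZeta (z + t * I)) z :=
      (differentiableAt_riemannZeta h7).comp z (f := fun w : ℂ => w + t * I) (by fun_prop)
    exact (h8.inv (hcon z (hK' z hz))).differentiableWithinAt
  have hdc : DiffContOnCl ℂ (fun z => (riemannZeta (z + t * I))⁻¹) (Metric.ball s0 r) := by
    apply DifferentiableOn.diffContOnCl
    refine hdiff.mono ?_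
    exact (Metric.closure_ball_subset_closedBall).trans hcb
  have hbound : ∀ z ∈ frontier (Metric.ball s0 r), ‖(riemannZeta (z + t * I))⁻¹‖ ≤ (m - r')⁻¹ := by
    intro z hz
    rw [frontier_ball s0 hr0.ne'] at hz
    have hzK : z ∈ K := hK' z (hcb (Metric.sphere_subset_closedBall hz))
    have h9 := hnear z hzK
    have h10 : m ≤ ‖riemannZeta z‖ := hmin hz
    have h11 : ‖riemannZeta z‖ - ‖riemannZeta (z + t * I)‖ ≤ r' := by
      have := norm_sub_norm_le (riemannZeta z) (riemannZeta (z + t * I))
      rw [norm_sub_rev] at this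
      linarith
    rw [norm_inv]
    apply inv_anti₀
    · linarith
    · linarith
  have h12 := Complex.norm_le_of_forall_mem_frontier_norm_le Metric.isBounded_ball hdc hbound
    (subset_closure (Metric.mem_ball_self hr0))
  have h13 : ‖riemannZeta (s0 + t * I)‖ ≤ r' := by
    have := hnear s0 (mem_of_mem_nhds hK)
    rwa [hs, sub_zero] at this
  have h14 : 0 < ‖riemannZeta (s0 + t * I)‖ := norm_pos_iff.2 (hcon s0 (mem_of_mem_nhds hK))
  rw [norm_inv] at h12
  have h15 : m - r' ≤ ‖riemannZeta (s0 + t * I)‖ := by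
    have h16 : 0 < m - r' := by linarith
    exact (inv_le_inv₀ h14 h16).1 h12
  linarith

/-- the criterion -/
theorem rec_iff (θ : ℝ) (h1 : 1 / 2 ≤ θ) :
    (∀ s : ℂ, θ < s.re → s.re < 1 → riemannZeta s ≠ 0) ↔
    ∀ K : Set ℂ, IsCompact K → (∀ z ∈ K, θ < z.re ∧ z.re < 1) → IsConnected Kᶜ → ∀ η : ℝ, 0 < η →
      ∃ d p : ℝ, 0 < d ∧ 0 < p ∧ ∀ᶠ U : ℝ in atTop,
        p * (U * Real.log U) ≤ (({γ ∈ SI (d / Real.log U) 0 U | Near K {riemannZeta} η γ}.ncard : ℕ) : ℝ) := by
  constructor
  · intro h K hK hKs hKc η hη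
    have hKs' : ∀ z ∈ K, 1 / 2 < z.re ∧ z.re < 1 := fun z hz => ⟨by linarith [(hKs z hz).1], (hKs z hz).2⟩
    have hne : ∀ z ∈ K, z ≠ 1 := by
      rintro z hz rfl
      have := (hKs 1 hz).2
      simp at this
    obtain ⟨c, hc, hv⟩ := voronin K riemannZeta hK hKs' hKc
      (fun z hz => (differentiableAt_riemannZeta (hne z hz)).continuousAt.continuousWithinAt)
      (fun z hz => (differentiableAt_riemannZeta (hne z (interior_subset hz))).differentiableWithinAt)
      (fun z hz => h z (hKs z (interior_subset hz)).1 (hKs z (interior_subset hz)).2) (η / 2) (by positivity)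
    exact density_low K hK hKs' {riemannZeta} η hη c hc hv
  · intro h s0 hs1 hs2 hs0
    set a := (θ + s0.re) / 2 with ha
    set b := (s0.re + 1) / 2 with hb
    set B := |s0.im| + 1 with hB
    have hB0 : 0 < B := by positivity
    have hK := ZU.J_b2.rect_compact a b B
    have hKs : ∀ z ∈ rect a b B, θ < z.re ∧ z.re < 1 := by
      rintro z ⟨h3, h4, h5⟩
      constructor <;> linarith
    have hKs' : ∀ z ∈ rect a b B, 1 / 2 < z.re ∧ z.re < 1 := fun z hz => ⟨by linarith [(hKs z hz).1], (hKs z hz).2⟩
    have hnhds : rect a b B ∈ 𝓝 s0 := by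
      have h6 : IsOpen {z : ℂ | a < z.re ∧ z.re < b ∧ |z.im| < B} :=
        (isOpen_lt continuous_const Complex.continuous_re).inter
          ((isOpen_lt Complex.continuous_re continuous_const).inter (isOpen_lt Complex.continuous_im.abs continuous_const))
      refine Filter.mem_of_superset (h6.mem_nhds ⟨by linarith, by linarith, by linarith⟩) ?_
      rintro z ⟨h7, h8, h9⟩
      exact ⟨h7.le, h8.le, h9.le⟩
    obtain ⟨η, hη, hz⟩ := zero_of_near s0 hs0 (rect a b B) hnhds (fun z hz => (hKs z hz).2)
    obtain ⟨d, p, hd, hp, hcount⟩ := h (rect a b B) hK hKs (ZU.J_b2.rect_compl_conn a b B) (η / 2) (by positivity)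
    obtain ⟨c, hc, hden⟩ := density_up (rect a b B) hK hKs' {riemannZeta} η hη p hp (by
      filter_upwards [hcount] with U hU
      exact hU.trans (SI_le_NM _ _ _))
    obtain ⟨U, hU1, hU2, hU3⟩ := (hden.and ((zero_measure a b B (by linarith) (by linarith) (by linarith) hB0 (c / 2)
      (by positivity)).and (eventually_ge_atTop 1))).exists
    have h10 : Ms 0 U (Near (rect a b B) {riemannZeta} η) ≤
        Ms 0 U (fun t => ∃ z ∈ rect a b B, riemannZeta (z + t * I) = 0) := by
      apply ENNReal.toReal_mono (Ms_fin _ _ _)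
      apply measure_mono
      rintro t ⟨h11, h12⟩
      exact ⟨h11, hz t h12⟩
    nlinarith

/-- the Riemann hypothesis is the absence of zeros in the right half of the strip -/
theorem rh_iff : RiemannHypothesis ↔ ∀ s : ℂ, 1 / 2 < s.re → s.re < 1 → riemannZeta s ≠ 0 := by
  constructor
  · intro h s h1 h2 h3
    have := h s h3 (by
      rintro ⟨n, hn⟩
      have h4 := congrArg Complex.re hn
      simp at h4
      have : (0 : ℝ) ≤ n := Nat.cast_nonneg _
      linarith) (by rintro rfl; simp at h2)
    linarith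
  · intro h s hs htriv hs1
    by_contra hne
    rcases lt_or_gt_of_ne hne with h1 | h1
    · -- left of the line
      rcases lt_or_ge 0 s.re with h0 | h0
      · have h3 := riemannZeta_one_sub (s := s) (by
          intro n hn
          rw [hn] at h0
          simp at h0
          have : (0 : ℝ) ≤ n := Nat.cast_nonneg _
          linarith) hs1
        rw [hs, mul_zero] at h3
        exact h (1 - s) (by simp; linarith) (by simp; linarith) h3
      · -- the functional equation at 1 - s
        have hs0 : s ≠ 0 := by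
          rintro rfl
          rw [riemannZeta_zero] at hs
          norm_num at hs
        have h4 := riemannZeta_one_sub (s := 1 - s) (by
          intro n hn
          have h5 := congrArg Complex.re hn
          simp at h5
          have : (0 : ℝ) ≤ n := Nat.cast_nonneg _
          linarith) (by
          intro h5
          apply hs0
          linear_combination -h5)
        rw [sub_sub_cancel, hs] at h4
        have hz : riemannZeta (1 - s) ≠ 0 := riemannZeta_ne_zero_of_one_le_re (by simp; linarith)
        have hG : Complex.Gamma (1 - s) ≠ 0 := Complex.Gamma_ne_zero_of_re_pos (by simp; linarith)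
        have hpi : ((2 : ℂ) * Real.pi) ^ (-(1 - s)) ≠ 0 := by
          rw [Complex.cpow_ne_zero_iff]
          left
          simp [Real.pi_ne_zero]
        have hcos : Complex.cos (Real.pi * (1 - s) / 2) = 0 := by
          by_contra hc
          exact (mul_ne_zero (mul_ne_zero (mul_ne_zero (mul_ne_zero two_ne_zero hpi) hG) hc) hz) h4.symm
        rw [Complex.cos_eq_zero_iff] at hcos
        obtain ⟨k, hk⟩ := hcos
        have hpi' : (Real.pi : ℂ) ≠ 0 := by exact_mod_cast Real.pi_ne_zero
        have h6 : s = -2 * k := by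
          field_simp at hk
          linear_combination -hk
        have h7 : s.re = -2 * k := by rw [h6]; simp
        have hk0 : 0 ≤ k := by
          have : (0 : ℝ) ≤ k := by linarith
          exact_mod_cast this
        have hk1 : k ≠ 0 := by
          rintro rfl
          apply hs0
          rw [h6]; simp
        apply htriv
        refine ⟨(k - 1).toNat, ?_⟩
        have h8 : ((k - 1).toNat : ℤ) = k - 1 := Int.toNat_of_nonneg (by omega)
        have h9 : (((k - 1).toNat : ℕ) : ℂ) = (k : ℂ) - 1 := by
          have := congrArg (Int.cast : ℤ → ℂ) h8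
          push_cast at this
          exact this
        rw [h9, h6]
        ring
    · rcases lt_or_ge s.re 1 with h2 | h2
      · exact h s h1 h2 hs
      · exact riemannZeta_ne_zero_of_one_le_re h2 hs

/-- the Riemann hypothesis is self-approximation at the simple zeros -/
theorem rh_rec : RiemannHypothesis ↔
    ∀ K : Set ℂ, IsCompact K → (∀ z ∈ K, 1 / 2 < z.re ∧ z.re < 1) → IsConnected Kᶜ → ∀ η : ℝ, 0 < η →
      ∃ d p : ℝ, 0 < d ∧ 0 < p ∧ ∀ᶠ U : ℝ in atTop,
        p * (U * Real.log U) ≤ (({γ ∈ SI (d / Real.log U) 0 U | Near K {riemannZeta} η γ}.ncard : ℕ) : ℝ) := by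
  rw [rh_iff, rec_iff (1 / 2) le_rfl]

end

end Pool.Agent.H510.UZ
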