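import Pool.Agent.H510.UZ.Rec

/-!
The four statements on `(0, T]`.
-/

set_option autoImplicit false

open Complex Filter Topology MeasureTheory
open Pool.Agent.Q97.UM (dp N2 ZI mz)

namespace Pool.Agent.H510.UZ

noncomputable section

/-- superadditive counting functions -/
def Super (F : ℝ → ℝ → ℝ → ℝ) : Prop :=
  (∀ r a b, 0 ≤ F r a b) ∧ ∀ r r' a b c : ℝ, r ≤ r' → 0 ≤ a → a ≤ b → b ≤ c → F r' a b + F r b c ≤ F r a c

theorem dyF (F : ℝ → ℝ → ℝ → ℝ) (hF : Super F) (α ε d T₀ : ℝ) (hα : 0 ≤ α) (hε : 0 ≤ ε) (hd : 0 ≤ d) (hT₀ : 16 ≤ T₀)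
    (P : ℝ → Prop)
    (h : ∀ T ≥ T₀, α * (Real.log T / (2 * Real.pi) * Ms T (2 * T) P) - ε * T * Real.log T ≤
      F (d / Real.log T) T (2 * T)) (U : ℝ) :
    ∀ J : ℕ, T₀ ≤ U / 2 ^ J → α * (Real.log (U / 2 ^ J) / (2 * Real.pi) * Ms (U / 2 ^ J) U P) -
      ε * (U - U / 2 ^ J) * Real.log U ≤ F (d / Real.log U) (U / 2 ^ J) U := by
  intro J
  induction J with
  | zero =>
    intro _
    have : Ms (U / 2 ^ 0) U P = 0 := by
      unfold Ms
      simp
    rw [this]
    have := hF.1 (d / Real.log U) (U / 2 ^ 0) U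
    simpa using this
  | succ J ih =>
    intro hJ
    set a := U / 2 ^ (J + 1) with ha
    have hb : U / 2 ^ J = 2 * a := by rw [ha, pow_succ]; field_simp
    have ha0 : 0 < a := by linarith
    have hU : a ≤ U := by
      have hU0 : 0 < U := by
        by_contra hneg
        push Not at hneg
        have : a ≤ 0 := div_nonpos_of_nonpos_of_nonneg hneg (by positivity)
        linarith
      rw [ha]
      exact div_le_self hU0.le (one_le_pow₀ (by norm_num))
    have hU2 : 2 * a ≤ U := by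
      rw [← hb]
      have hU0 : 0 < U := by linarith
      exact div_le_self hU0.le (one_le_pow₀ (by norm_num))
    have ih' := ih (by rw [hb]; linarith)
    rw [hb] at ih'
    have h1 := h a hJ
    have hla : 0 < Real.log a := Real.log_pos (by linarith)
    have hlau : Real.log a ≤ Real.log U := Real.log_le_log ha0 hU
    have hlb : Real.log a ≤ Real.log (2 * a) := Real.log_le_log ha0 (by linarith)
    have h3 := hF.2 (d / Real.log U) (d / Real.log a) a (2 * a) U
      (div_le_div_of_nonneg_left hd hla hlau) ha0.le (by linarith) hU2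
    rw [Ms_add a (2 * a) U (by linarith) hU2 P]
    have hpi := Real.pi_pos
    have h4 : α * (Real.log a / (2 * Real.pi) * Ms (2 * a) U P) ≤ α * (Real.log (2 * a) / (2 * Real.pi) * Ms (2 * a) U P) := by
      have := Ms_nonneg (2 * a) U P
      gcongr
    have h5 : ε * a * Real.log a ≤ ε * a * Real.log U := by gcongr
    nlinarith

/-- from the dyadic intervals to `(0, U]` -/
theorem glob_gen (ε : ℝ) (hε : 0 < ε) (T₀ : ℝ) (hT₀ : 16 ≤ T₀) : ∃ U₀ : ℝ, ∀ U ≥ U₀, ∀ (F : ℝ → ℝ → ℝ → ℝ), Super F →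
    ∀ α d : ℝ, 0 ≤ α → α ≤ 1 → 0 ≤ d → ∀ P : ℝ → Prop,
    (∀ T ≥ T₀, α * (Real.log T / (2 * Real.pi) * Ms T (2 * T) P) - ε / 4 * T * Real.log T ≤
      F (d / Real.log T) T (2 * T)) →
    α * (Real.log U / (2 * Real.pi) * Ms 0 U P) - ε * U * Real.log U ≤ F (d / Real.log U) 0 U := by
  obtain ⟨J, hJ⟩ := exists_pow_lt_of_lt_one (show (0 : ℝ) < ε / 4 by positivity) (show (1 / 2 : ℝ) < 1 by norm_num)
  have hJ' : 1 / (2 : ℝ) ^ J < ε / 4 := by
    rw [one_div_pow] at hJ
    exact hJ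
  obtain ⟨U₀, hU₀⟩ := eventually_atTop.1 ((eventually_ge_atTop (T₀ * 2 ^ J)).and ((eventually_ge_atTop 16).and
    (Real.tendsto_log_atTop.eventually_ge_atTop (J * 4 / ε))))
  refine ⟨U₀, ?_⟩
  intro U hU' F hF α d hα0 hα1 hd0 P h
  obtain ⟨hU, hU16, hUJ⟩ := hU₀ U hU'
  have hp : (0 : ℝ) < 2 ^ J := by positivity
  have h1 : T₀ ≤ U / 2 ^ J := by rwa [le_div_iff₀ hp]
  have hpi3 := Real.pi_gt_three
  have hL : 0 < Real.log U := Real.log_pos (by linarith)
  have h2 := dyF F hF α (ε / 4) d T₀ hα0 (by positivity) hd0 hT₀ P h U J h1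
  set a := U / 2 ^ J with ha
  have ha0 : 0 < a := by linarith
  have haU : a ≤ U := div_le_self (by linarith) (one_le_pow₀ (by norm_num))
  have h3 : F (d / Real.log U) a U ≤ F (d / Real.log U) 0 U := by
    have h5 := hF.2 (d / Real.log U) (d / Real.log U) 0 a U le_rfl le_rfl ha0.le haU
    have h6 := hF.1 (d / Real.log U) 0 a
    linarith
  have h4 : Ms 0 U P ≤ a + Ms a U P := by
    rw [Ms_add 0 a U ha0.le haU]
    have := Ms_le 0 a ha0.le P
    linarith
  have h5 : Real.log U - J ≤ Real.log a := by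
    rw [ha, Real.log_div (by linarith) hp.ne', Real.log_pow]
    have := Real.log_two_lt_d9
    have hJ0 : (0 : ℝ) ≤ J := Nat.cast_nonneg _
    nlinarith
  have h6 : a ≤ ε / 4 * U := by
    rw [ha, div_eq_mul_one_div, mul_comm]
    apply mul_le_mul_of_nonneg_right hJ'.le (by linarith)
  have h7 : (J : ℝ) ≤ ε / 4 * Real.log U := by
    have : J * 4 / ε * (ε / 4) ≤ Real.log U * (ε / 4) := by gcongr
    have e : J * 4 / ε * (ε / 4) = (J : ℝ) := by field_simp
    linarith
  set M := Ms a U P with hM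
  have hM0 : 0 ≤ M := Ms_nonneg _ _ _
  have hMU : M ≤ U := by
    have := Ms_le a U haU P
    linarith
  set q := α / (2 * Real.pi) with hq
  have hq0 : 0 ≤ q := div_nonneg (by linarith) (by positivity)
  have hq1 : q ≤ 1 := by
    rw [hq, div_le_one (by positivity)]
    linarith
  have e1 : α * (Real.log a / (2 * Real.pi) * M) = q * (Real.log a * M) := by rw [hq]; field_simp
  have e2 : α * (Real.log U / (2 * Real.pi) * Ms 0 U P) = q * (Real.log U * Ms 0 U P) := by rw [hq]; field_simp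
  rw [e1] at h2
  rw [e2]
  have g1 : (Real.log U - J) * M ≤ Real.log a * M := mul_le_mul_of_nonneg_right h5 hM0
  have g2 : Real.log U * Ms 0 U P ≤ Real.log U * (a + M) := mul_le_mul_of_nonneg_left h4 hL.le
  have g3 : Real.log U * a ≤ Real.log U * (ε / 4 * U) := mul_le_mul_of_nonneg_left h6 hL.le
  have g4 : (J : ℝ) * M ≤ ε / 4 * Real.log U * U := by
    apply mul_le_mul h7 hMU hM0 (by positivity)
  have g5 : Real.log U * Ms 0 U P ≤ Real.log a * M + (ε / 2) * (U * Real.log U) := by linarith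
  have g6 := mul_le_mul_of_nonneg_left g5 hq0
  have g7 : q * ((ε / 2) * (U * Real.log U)) ≤ 1 * ((ε / 2) * (U * Real.log U)) := by
    apply mul_le_mul_of_nonneg_right hq1 (by positivity)
  have g8 : ε / 4 * (U - a) * Real.log U ≤ ε / 4 * U * Real.log U := by
    apply mul_le_mul_of_nonneg_right _ hL.le
    apply mul_le_mul_of_nonneg_left (by linarith) (by positivity)
  have g9 : 0 ≤ ε * (U * Real.log U) := by positivity
  nlinarith

theorem super_SI (Q : ℝ → Prop) : Super fun r a b => (({γ ∈ SI r a b | Q γ}.ncard : ℕ) : ℝ) := by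
  constructor
  · intro r a b
    positivity
  · intro r r' a b c hr ha h1 h2
    beta_reduce
    exact_mod_cast SI_add r r' a b c ha h1 h2 hr Q

theorem super_NM (Q : ℝ → Prop) : Super fun _ a b => NM a b Q := by
  constructor
  · intro r a b
    exact NM_nonneg a b Q
  · intro r r' a b c hr ha h1 h2
    exact (NM_add a b c ha h1 h2 Q).ge

theorem super_left (Q : ℝ → Prop) : Super fun _ a b => (({s ∈ zeros a b | s.re ≤ 1 / 2 ∧ Q s.im}.ncard : ℕ) : ℝ) := by
  constructor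
  · intro r a b
    positivity
  · intro r r' a b c hr ha h1 h2
    have hf1 : {s ∈ zeros a b | s.re ≤ 1 / 2 ∧ Q s.im}.Finite := (zeros_finite a b ha).subset fun _ h => h.1
    have hf2 : {s ∈ zeros b c | s.re ≤ 1 / 2 ∧ Q s.im}.Finite := (zeros_finite b c (ha.trans h1)).subset fun _ h => h.1
    have : {s ∈ zeros a b | s.re ≤ 1 / 2 ∧ Q s.im}.ncard + {s ∈ zeros b c | s.re ≤ 1 / 2 ∧ Q s.im}.ncard ≤
        {s ∈ zeros a c | s.re ≤ 1 / 2 ∧ Q s.im}.ncard := by
      rw [← Set.ncard_union_eq _ hf1 hf2]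
      · refine Set.ncard_le_ncard ?_ ((zeros_finite a c ha).subset fun _ h => h.1)
        rintro s (⟨⟨h3, h4, h5, h6, h7⟩, h8⟩ | ⟨⟨h3, h4, h5, h6, h7⟩, h8⟩)
        · exact ⟨⟨h3, h4, h5, h6, by linarith⟩, h8⟩
        · exact ⟨⟨h3, h4, h5, by linarith, h7⟩, h8⟩
      · rw [Set.disjoint_left]
        rintro s ⟨⟨_, _, _, _, h4⟩, _⟩ ⟨⟨_, _, _, h3, _⟩, _⟩
        linarith
    beta_reduce
    exact_mod_cast this

/-- the four statements, on `(T, 2T]` and on `(0, T]` -/
theorem fair (ε : ℝ) (hε : 0 < ε) : ∃ d : ℝ, 0 < d ∧ ∀ (K : Set ℂ), IsCompact K →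
    (∀ z ∈ K, 1 / 2 < z.re ∧ z.re < 1) → ∀ κ : ℝ, 0 < κ → ∀ᶠ T : ℝ in atTop,
    ∀ a b : ℝ, (a = T ∧ b = 2 * T ∨ a = 0 ∧ b = T) → ∀ (A : Set (ℂ → ℂ)) (η : ℝ),
    (2 - H370.cMTinv) * (Real.log T / (2 * Real.pi) * Ms a b (Near K A η)) - ε * T * Real.log T ≤
      (({γ ∈ SI (d / Real.log T) a b | Near K A (η + κ) γ}.ncard : ℕ) : ℝ) ∧
    ((3 - H370.cMTinv) / 2) * (Real.log T / (2 * Real.pi) * Ms a b (Near K A η)) - ε * T * Real.log T ≤
      (({s ∈ zeros a b | s.re ≤ 1 / 2 ∧ Near K A (η + κ) s.im}.ncard : ℕ) : ℝ) ∧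
    Real.log T / (2 * Real.pi) * Ms a b (Near K A η) - ε * T * Real.log T ≤ NM a b (Near K A (η + κ)) ∧
    NM a b (Near K A η) ≤ Real.log T / (2 * Real.pi) * Ms a b (Near K A (η + κ)) + ε * T * Real.log T := by
  classical
  obtain ⟨d, hd0, hd1, hval⟩ := value_transfer (ε / 4) (by positivity)
  refine ⟨d, hd0, ?_⟩
  intro K hK hKs κ hκ
  obtain ⟨T₁, hT₁⟩ := eventually_atTop.1 (hval K hK hKs κ hκ)
  have key : ∀ T ≥ max T₁ 16, ∀ (A : Set (ℂ → ℂ)) (η : ℝ),
      (2 - H370.cMTinv) * (Real.log T / (2 * Real.pi) * Ms T (2 * T) (Near K A η)) - ε / 4 * T * Real.log T ≤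
        (({γ ∈ SI (d / Real.log T) T (2 * T) | Near K A (η + κ) γ}.ncard : ℕ) : ℝ) ∧
      ((3 - H370.cMTinv) / 2) * (Real.log T / (2 * Real.pi) * Ms T (2 * T) (Near K A η)) - ε / 4 * T * Real.log T ≤
        (({s ∈ zeros T (2 * T) | s.re ≤ 1 / 2 ∧ Near K A (η + κ) s.im}.ncard : ℕ) : ℝ) ∧
      Real.log T / (2 * Real.pi) * Ms T (2 * T) (Near K A η) - ε / 4 * T * Real.log T ≤
        NM T (2 * T) (Near K A (η + κ)) ∧
      NM T (2 * T) (Near K A η) ≤
        Real.log T / (2 * Real.pi) * Ms T (2 * T) (Near K A (η + κ)) + ε / 4 * T * Real.log T := by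
    intro T hT A η
    have h16 : 16 ≤ T := (le_max_right _ _).trans hT
    obtain ⟨h1, h2, h3, h4⟩ := hT₁ T ((le_max_left _ _).trans hT) A η
    rw [V_eq] at h1 h2 h3 h4
    rw [ZI_card h16 hd1] at h1
    rw [left_card (by linarith)] at h2
    rw [← NM_eq (by linarith : (1 : ℝ) ≤ T)] at h3 h4
    exact ⟨h1, h2, h3, h4⟩
  obtain ⟨U₀, hU₀⟩ := glob_gen ε hε (max T₁ 16) (le_max_right _ _)
  have hc1 := H370.cMTinv_gt_one
  have hc2 := H370.cMTinv_lt
  filter_upwards [eventually_ge_atTop (max T₁ 16), eventually_ge_atTop U₀, global_up ε hε K hK hKs κ hκ,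
    eventually_ge_atTop 16] with T hT hTU hup h16 a b hab A η
  have hL : 0 < Real.log T := Real.log_pos (by linarith)
  rcases hab with ⟨rfl, rfl⟩ | ⟨rfl, rfl⟩
  · obtain ⟨h1, h2, h3, h4⟩ := key a hT A η
    have h5 : ε / 4 * a * Real.log a ≤ ε * a * Real.log a := by
      have : 0 ≤ ε * a * Real.log a := by positivity
      linarith
    exact ⟨by linarith, by linarith, by linarith, by linarith⟩
  · refine ⟨?_, ?_, ?_, hup A η⟩
    · have := hU₀ b hTU _ (super_SI (Near K A (η + κ))) (2 - H370.cMTinv) d (by linarith) (by linarith) hd0.le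
        (Near K A η) (by
          intro T hT'
          exact (key T hT' A η).1)
      exact this
    · have := hU₀ b hTU _ (super_left (Near K A (η + κ))) ((3 - H370.cMTinv) / 2) d (by linarith) (by linarith) hd0.le
        (Near K A η) (by
          intro T hT'
          exact (key T hT' A η).2.1)
      exact this
    · have := hU₀ b hTU _ (super_NM (Near K A (η + κ))) 1 d (by norm_num) le_rfl hd0.le
        (Near K A η) (by
          intro T hT'
          rw [one_mul]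
          exact (key T hT' A η).2.2.1)
      rw [one_mul] at this
      exact this

end

end Pool.Agent.H510.UZ
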