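import Pool.Graph.R_seed8.Helper240.ZU.Defs
import Pool.Graph.R_pool_sql_team_seeded_3997aac3.Q97.UM.Stm3

/-!
Almost periodic functions: thickened indicator functions of arbitrary subsets of a torus, evaluated at the phases `n^{-it}`,
are uniformly close to absolute values of Dirichlet polynomials from a finite list.
-/

set_option autoImplicit false

open Complex Filter Topology MeasureTheory
open scoped NNReal

namespace Pool.Agent.H510.UZ

/-- the index set `{1, …, N}` -/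
abbrev Ix (N : ℕ) : Type := {n : ℕ // n ∈ Finset.Icc 1 N}

/-- the torus -/
abbrev Tor (N : ℕ) : Type := Ix N → Circle

/-- the phases `n^{-it}`, `n ≤ N` -/
noncomputable def ph (N : ℕ) (t : ℝ) : Tor N := fun n => Circle.exp (-(t * Real.log (n : ℕ)))

theorem ph_coe (N : ℕ) (t : ℝ) (n : Ix N) : ((ph N t n : Circle) : ℂ) = ((n : ℕ) : ℂ) ^ (-(t * I)) := by
  have hn : ((n : ℕ) : ℂ) ≠ 0 := by
    have := (Finset.mem_Icc.mp n.2).1
    exact_mod_cast (by omega : (n : ℕ) ≠ 0)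
  unfold ph
  rw [Circle.coe_exp, Complex.cpow_def_of_ne_zero hn, ← Complex.natCast_log]
  congr 1
  push_cast
  ring

theorem ph_cont (N : ℕ) : Continuous (ph N) := by
  unfold ph
  fun_prop

/-- the Dirichlet polynomial with phases -/
noncomputable def FT (N : ℕ) (θ : Tor N) (z : ℂ) : ℂ := ∑ n : Ix N, (θ n : ℂ) * ((n : ℕ) : ℂ) ^ (-z)

theorem FT_ph (N : ℕ) (t : ℝ) (z : ℂ) : FT N (ph N t) z = ZU.DN N (z + t * I) := by
  unfold FT ZU.DN
  rw [← Finset.sum_coe_sort (Finset.Icc 1 N) (fun n : ℕ => (n : ℂ) ^ (-(z + t * I)))]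
  apply Finset.sum_congr rfl
  intro n _
  have hn : ((n : ℕ) : ℂ) ≠ 0 := by
    have := (Finset.mem_Icc.mp n.2).1
    exact_mod_cast (by omega : (n : ℕ) ≠ 0)
  rw [ph_coe, ← Complex.cpow_add _ _ hn]
  congr 1
  ring

theorem FT_lip (N : ℕ) (θ θ' : Tor N) (z : ℂ) (hz : 0 ≤ z.re) : ‖FT N θ z - FT N θ' z‖ ≤ N * dist θ θ' := by
  unfold FT
  rw [← Finset.sum_sub_distrib]
  refine (norm_sum_le _ _).trans ?_
  have h : ∀ n ∈ (Finset.univ : Finset (Ix N)),
      ‖(θ n : ℂ) * ((n : ℕ) : ℂ) ^ (-z) - (θ' n : ℂ) * ((n : ℕ) : ℂ) ^ (-z)‖ ≤ dist θ θ' := by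
    intro n _
    rw [← sub_mul, norm_mul]
    have hn1 : 1 ≤ (n : ℕ) := (Finset.mem_Icc.mp n.2).1
    have h1 : ‖((n : ℕ) : ℂ) ^ (-z)‖ ≤ 1 := by
      rw [Complex.norm_natCast_cpow_of_pos (by omega)]
      apply Real.rpow_le_one_of_one_le_of_nonpos
      · exact_mod_cast hn1
      · simpa using hz
    have h2 : ‖(θ n : ℂ) - (θ' n : ℂ)‖ ≤ dist θ θ' := by
      have := dist_le_pi_dist θ θ' n
      rw [← dist_eq_norm]
      exact this
    calc ‖(θ n : ℂ) - (θ' n : ℂ)‖ * ‖((n : ℕ) : ℂ) ^ (-z)‖ ≤ dist θ θ' * 1 := by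
          apply mul_le_mul h2 h1 (norm_nonneg _) dist_nonneg
      _ = dist θ θ' := mul_one _
  refine (Finset.sum_le_sum h).trans ?_
  rw [Finset.sum_const, Finset.card_univ, Fintype.card_coe, Nat.card_Icc, nsmul_eq_mul]
  simp

/-! ### Dirichlet polynomials -/

/-- `t ↦ (n + 1)^{-it}` -/
noncomputable def eb (n : ℕ) : ℝ → ℂ := fun t => ((n + 1 : ℕ) : ℂ) ^ (-(t * I))

theorem eb_mul (m n : ℕ) : eb m * eb n = eb ((m + 1) * (n + 1) - 1) := by
  ext t
  have h : (m + 1) * (n + 1) - 1 + 1 = (m + 1) * (n + 1) := Nat.sub_add_cancel (Nat.mul_pos (by omega) (by omega))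
  simp only [eb, Pi.mul_apply]
  rw [h, Nat.cast_mul, Complex.natCast_mul_natCast_cpow]

theorem eb_zero : eb 0 = 1 := by
  ext t
  simp [eb]

theorem eb_norm (n : ℕ) (t : ℝ) : ‖eb n t‖ = 1 := by
  unfold eb
  rw [Complex.norm_natCast_cpow_of_pos (by omega)]
  simp

theorem eb_star (n : ℕ) : eb n * star (eb n) = 1 := by
  ext t
  simp only [Pi.mul_apply, Pi.star_apply, Pi.one_apply]
  have : eb n t * star (eb n t) = (‖eb n t‖ ^ 2 : ℝ) := by
    rw [Complex.star_def, Complex.mul_conj, Complex.normSq_eq_norm_sq]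
  rw [this, eb_norm]
  simp

/-- the Dirichlet polynomials on the imaginary axis -/
noncomputable def DD : Submodule ℂ (ℝ → ℂ) := Submodule.span ℂ (Set.range eb)

theorem DD_mul {f g : ℝ → ℂ} (hf : f ∈ DD) (hg : g ∈ DD) : f * g ∈ DD := by
  have h : f * g ∈ Submodule.span ℂ (Set.range eb) * Submodule.span ℂ (Set.range eb) := Submodule.mul_mem_mul hf hg
  rw [Submodule.span_mul_span] at h
  refine Submodule.span_mono ?_ h
  rintro x ⟨a, ⟨m, rfl⟩, b, ⟨n, rfl⟩, rfl⟩
  exact ⟨_, (eb_mul m n).symm⟩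

theorem eb_mem (n : ℕ) : eb n ∈ DD := Submodule.subset_span ⟨n, rfl⟩

theorem DD_star {f : ℝ → ℂ} (hf : f ∈ DD) : ∃ D : ℕ, eb D * star f ∈ DD := by
  unfold DD at hf
  induction hf using Submodule.span_induction with
  | mem x hx =>
    obtain ⟨n, rfl⟩ := hx
    refine ⟨n, ?_⟩
    rw [eb_star, ← eb_zero]
    exact eb_mem 0
  | zero => exact ⟨0, by simp [DD]⟩
  | add x y _ _ hx hy =>
    obtain ⟨D1, h1⟩ := hx
    obtain ⟨D2, h2⟩ := hy
    refine ⟨(D1 + 1) * (D2 + 1) - 1, ?_⟩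
    rw [← eb_mul, star_add, mul_add]
    refine Submodule.add_mem _ ?_ ?_
    · have := DD_mul (eb_mem D2) h1
      have e : eb D1 * eb D2 * star x = eb D2 * (eb D1 * star x) := by ring
      rw [e]; exact this
    · have := DD_mul (eb_mem D1) h2
      have e : eb D1 * eb D2 * star y = eb D1 * (eb D2 * star y) := by ring
      rw [e]; exact this
  | smul a x _ hx =>
    obtain ⟨D, h⟩ := hx
    refine ⟨D, ?_⟩
    rw [star_smul, mul_smul_comm]
    exact Submodule.smul_mem _ _ h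

/-- representation by coefficients -/
theorem DD_rep {f : ℝ → ℂ} (hf : f ∈ DD) : ∃ (M : ℕ) (b : ℕ → ℂ), ∀ t : ℝ, f t = Pool.Agent.Q97.UM.dp M b t := by
  unfold DD at hf
  rw [Finsupp.mem_span_range_iff_exists_finsupp] at hf
  obtain ⟨c, rfl⟩ := hf
  refine ⟨c.support.sup id + 1, fun n => c (n - 1) * (n : ℂ) ^ (1 / 2 : ℂ), ?_⟩
  intro t
  unfold Pool.Agent.Q97.UM.dp Finsupp.sum
  have h1 : ∑ i ∈ c.support, (c i • eb i) t = ∑ i ∈ Finset.range (c.support.sup id + 1), (c i • eb i) t := by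
    apply Finset.sum_subset
    · intro i hi
      rw [Finset.mem_range]
      exact Nat.lt_succ_of_le (Finset.le_sup (f := id) hi)
    · intro i _ hi
      rw [Finsupp.notMem_support_iff] at hi
      rw [hi]
      simp
  rw [Finset.sum_apply, h1, Finset.range_eq_Ico]
  have h2 := Finset.sum_Ico_add' (fun n : ℕ => c (n - 1) * (n : ℂ) ^ (1 / 2 : ℂ) * (n : ℂ) ^ (-(1 / 2 + t * I)))
    0 (c.support.sup id + 1) 1
  have h3 : Finset.Ico (0 + 1) (c.support.sup id + 1 + 1) = Finset.Icc 1 (c.support.sup id + 1) := by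
    ext n
    simp only [Finset.mem_Ico, Finset.mem_Icc]
    omega
  rw [h3] at h2
  rw [← h2]
  apply Finset.sum_congr rfl
  intro i _
  have hi : ((i + 1 : ℕ) : ℂ) ≠ 0 := by exact_mod_cast Nat.succ_ne_zero i
  rw [Nat.add_sub_cancel, mul_assoc, ← Complex.cpow_add _ _ hi]
  have e : (1 / 2 : ℂ) + -(1 / 2 + t * I) = -(t * I) := by ring
  rw [e]
  rfl

/-! ### the star algebra generated by the coordinates -/

/-- a coordinate function -/
noncomputable def coord (N : ℕ) (n : Ix N) : C(Tor N, ℂ) :=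
  ⟨fun θ => (θ n : ℂ), by fun_prop⟩

/-- the trigonometric polynomials -/
noncomputable def trig (N : ℕ) : StarSubalgebra ℂ C(Tor N, ℂ) := StarAlgebra.adjoin ℂ (Set.range (coord N))

theorem trig_dense (N : ℕ) : (trig N).topologicalClosure = ⊤ := by
  apply ContinuousMap.starSubalgebra_topologicalClosure_eq_top_of_separatesPoints
  intro x y hxy
  obtain ⟨n, hn⟩ := Function.ne_iff.1 hxy
  refine ⟨coord N n, ⟨coord N n, ?_, rfl⟩, ?_⟩
  · exact StarAlgebra.subset_adjoin ℂ _ ⟨n, rfl⟩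
  · intro h
    exact hn (Circle.coe_injective h)

/-- trigonometric polynomials along the curve of the phases are Dirichlet polynomials, up to a factor of modulus one -/
theorem trig_curve (N : ℕ) {q : C(Tor N, ℂ)} (hq : q ∈ trig N) : ∃ D : ℕ, eb D * (fun t => q (ph N t)) ∈ DD := by
  unfold trig at hq
  induction hq using StarAlgebra.adjoin_induction with
  | mem x hx =>
    obtain ⟨n, rfl⟩ := hx
    refine ⟨0, ?_⟩
    have hn1 : 1 ≤ (n : ℕ) := (Finset.mem_Icc.mp n.2).1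
    have e : (fun t => coord N n (ph N t)) = eb ((n : ℕ) - 1) := by
      ext t
      simp only [coord, ContinuousMap.coe_mk, eb]
      rw [ph_coe, Nat.sub_add_cancel hn1]
    rw [eb_zero, one_mul, e]
    exact eb_mem _
  | algebraMap r =>
    refine ⟨0, ?_⟩
    have e : (fun t => (algebraMap ℂ C(Tor N, ℂ) r) (ph N t)) = r • eb 0 := by
      ext t
      rw [eb_zero]
      simp [Algebra.algebraMap_eq_smul_one]
    rw [e, eb_zero, one_mul, ← eb_zero]
    exact Submodule.smul_mem _ _ (eb_mem 0)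
  | add x y _ _ hx hy =>
    obtain ⟨D1, h1⟩ := hx
    obtain ⟨D2, h2⟩ := hy
    refine ⟨(D1 + 1) * (D2 + 1) - 1, ?_⟩
    have e : eb ((D1 + 1) * (D2 + 1) - 1) * (fun t => (x + y) (ph N t)) =
        eb D2 * (eb D1 * (fun t => x (ph N t))) + eb D1 * (eb D2 * (fun t => y (ph N t))) := by
      rw [← eb_mul]
      ext t
      simp only [Pi.mul_apply, Pi.add_apply, ContinuousMap.add_apply]
      ring
    rw [e]
    exact Submodule.add_mem _ (DD_mul (eb_mem D2) h1) (DD_mul (eb_mem D1) h2)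
  | mul x y _ _ hx hy =>
    obtain ⟨D1, h1⟩ := hx
    obtain ⟨D2, h2⟩ := hy
    refine ⟨(D1 + 1) * (D2 + 1) - 1, ?_⟩
    have e : eb ((D1 + 1) * (D2 + 1) - 1) * (fun t => (x * y) (ph N t)) =
        (eb D1 * (fun t => x (ph N t))) * (eb D2 * (fun t => y (ph N t))) := by
      rw [← eb_mul]
      ext t
      simp only [Pi.mul_apply, ContinuousMap.mul_apply]
      ring
    rw [e]
    exact DD_mul h1 h2
  | star x _ hx =>
    obtain ⟨D, h⟩ := hx
    obtain ⟨D', h'⟩ := DD_star h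
    refine ⟨D', ?_⟩
    have e : eb D' * (fun t => (star x) (ph N t)) = eb D * (eb D' * star (eb D * (fun t => x (ph N t)))) := by
      ext t
      have h1 := congrFun (eb_star D) t
      simp only [Pi.mul_apply, Pi.star_apply, Pi.one_apply, star_mul'] at h1 ⊢
      have e2 : eb D t * (eb D' t * (star (eb D t) * star (x (ph N t)))) =
          (eb D t * star (eb D t)) * (eb D' t * star (x (ph N t))) := by ring
      rw [e2, h1, one_mul]
      rfl
    rw [e]
    exact DD_mul (eb_mem D) h'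

/-- approximation of a continuous function along the curve of the phases -/
theorem approx (N : ℕ) (f : C(Tor N, ℝ)) (hf : ∀ θ, 0 ≤ f θ) (η : ℝ) (hη : 0 < η) : ∃ (M : ℕ) (b : ℕ → ℂ),
    ∀ t : ℝ, |f (ph N t) - ‖Pool.Agent.Q97.UM.dp M b t‖| < η := by
  set g : C(Tor N, ℂ) := ⟨fun θ => (f θ : ℂ), by fun_prop⟩ with hg
  have h1 : g ∈ (trig N).topologicalClosure := by rw [trig_dense]; trivial
  have h2 : g ∈ closure ((trig N : StarSubalgebra ℂ C(Tor N, ℂ)) : Set C(Tor N, ℂ)) := by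
    rw [← StarSubalgebra.topologicalClosure_coe]
    exact h1
  rw [Metric.mem_closure_iff] at h2
  obtain ⟨q, hq, hd⟩ := h2 η hη
  obtain ⟨D, hD⟩ := trig_curve N hq
  obtain ⟨M, b, hb⟩ := DD_rep hD
  refine ⟨M, b, ?_⟩
  intro t
  have h3 : ‖Pool.Agent.Q97.UM.dp M b t‖ = ‖q (ph N t)‖ := by
    rw [← hb t, Pi.mul_apply, norm_mul, eb_norm, one_mul]
  rw [h3]
  have h4 : ‖g (ph N t)‖ = f (ph N t) := by
    simp only [hg, ContinuousMap.coe_mk, Complex.norm_real, Real.norm_eq_abs]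
    exact abs_of_nonneg (hf _)
  rw [← h4]
  calc |‖g (ph N t)‖ - ‖q (ph N t)‖| ≤ ‖g (ph N t) - q (ph N t)‖ := abs_norm_sub_norm_le _ _
    _ = dist (g (ph N t)) (q (ph N t)) := (dist_eq_norm _ _).symm
    _ ≤ dist g q := ContinuousMap.dist_apply_le_dist _
    _ < η := hd

/-! ### thickened indicators -/

/-- the thickened indicator function of a set, with real values -/
noncomputable def th (N : ℕ) {ρ : ℝ} (hρ : 0 < ρ) (S : Set (Tor N)) (θ : Tor N) : ℝ :=
  ((thickenedIndicator hρ S θ : ℝ≥0) : ℝ)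

theorem th_nonneg (N : ℕ) {ρ : ℝ} (hρ : 0 < ρ) (S : Set (Tor N)) (θ : Tor N) : 0 ≤ th N hρ S θ :=
  NNReal.coe_nonneg _

theorem th_le_one (N : ℕ) {ρ : ℝ} (hρ : 0 < ρ) (S : Set (Tor N)) (θ : Tor N) : th N hρ S θ ≤ 1 := by
  unfold th
  exact_mod_cast thickenedIndicator_le_one hρ S θ

theorem th_one (N : ℕ) {ρ : ℝ} (hρ : 0 < ρ) (S : Set (Tor N)) {θ : Tor N} (hθ : θ ∈ S) : th N hρ S θ = 1 := by
  unfold th
  rw [thickenedIndicator_one hρ S hθ]
  simp

theorem th_zero (N : ℕ) {ρ : ℝ} (hρ : 0 < ρ) (S : Set (Tor N)) {θ : Tor N} (hθ : θ ∉ Metric.thickening ρ S) :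
    th N hρ S θ = 0 := by
  unfold th
  rw [thickenedIndicator_zero hρ S hθ]
  simp

theorem th_lip (N : ℕ) {ρ : ℝ} (hρ : 0 < ρ) (S : Set (Tor N)) (θ θ' : Tor N) :
    dist (th N hρ S θ) (th N hρ S θ') ≤ ρ⁻¹ * dist θ θ' := by
  have h := (lipschitzWith_thickenedIndicator hρ S).dist_le_mul θ θ'
  rw [NNReal.dist_eq] at h
  rw [Real.dist_eq]
  refine h.trans (le_of_eq ?_)
  congr 1
  rw [NNReal.coe_inv, Real.coe_toNNReal _ hρ.le]

/-- the thickened indicator as a bounded continuous function -/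
noncomputable def thB (N : ℕ) {ρ : ℝ} (hρ : 0 < ρ) (S : Set (Tor N)) : BoundedContinuousFunction (Tor N) ℝ :=
  BoundedContinuousFunction.mkOfCompact ⟨fun θ => th N hρ S θ, by
    unfold th
    exact NNReal.continuous_coe.comp (thickenedIndicator hρ S).continuous⟩

/-- the compact set of functions -/
def Lip (N : ℕ) (L : ℝ) : Set (BoundedContinuousFunction (Tor N) ℝ) :=
  {f | (∀ x y, dist (f x) (f y) ≤ L * dist x y) ∧ ∀ x, f x ∈ Set.Icc (0 : ℝ) 1}

theorem Lip_compact (N : ℕ) (L : ℝ) (hL : 0 ≤ L) : IsCompact (Lip N L) := by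
  apply BoundedContinuousFunction.arzela_ascoli₂ (Set.Icc (0 : ℝ) 1) isCompact_Icc
  · have e : Lip N L = (⋂ x, ⋂ y, {f : BoundedContinuousFunction (Tor N) ℝ | dist (f x) (f y) ≤ L * dist x y}) ∩
        ⋂ x, {f : BoundedContinuousFunction (Tor N) ℝ | f x ∈ Set.Icc (0 : ℝ) 1} := by
      ext f
      simp [Lip]
    rw [e]
    refine IsClosed.inter ?_ ?_
    · refine isClosed_iInter fun x => isClosed_iInter fun y => ?_
      exact isClosed_le ((BoundedContinuousFunction.lipschitz_eval_const x).continuous.dist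
        (BoundedContinuousFunction.lipschitz_eval_const y).continuous) continuous_const
    · refine isClosed_iInter fun x => ?_
      exact isClosed_Icc.preimage (BoundedContinuousFunction.lipschitz_eval_const x).continuous
  · intro f x hf
    exact hf.2 x
  · intro x
    rw [Metric.equicontinuousAt_iff]
    intro ε hε
    refine ⟨ε / (L + 1), by positivity, ?_⟩
    rintro y hy ⟨f, hf⟩
    have h1 := hf.1 x y
    refine lt_of_le_of_lt h1 ?_
    have h2 : dist x y < ε / (L + 1) := by rw [dist_comm]; exact hy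
    calc L * dist x y ≤ L * (ε / (L + 1)) := by gcongr
      _ < ε := by
        rw [mul_div_assoc', div_lt_iff₀ (by positivity)]
        nlinarith

/-- a finite list of Dirichlet polynomials serves all subsets of the torus -/
theorem net (N : ℕ) {ρ : ℝ} (hρ : 0 < ρ) (η : ℝ) (hη : 0 < η) : ∃ 𝓑 : Finset (ℕ × (ℕ → ℂ)), ∀ S : Set (Tor N),
    ∃ p ∈ 𝓑, ∀ t : ℝ, |th N hρ S (ph N t) - ‖Pool.Agent.Q97.UM.dp p.1 p.2 t‖| ≤ η := by
  classical
  have hc := (Lip_compact N ρ⁻¹ (by positivity)).totallyBounded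
  rw [Metric.totallyBounded_iff] at hc
  obtain ⟨Y, hY, hcov⟩ := hc (η / 2) (by positivity)
  have happ : ∀ f : BoundedContinuousFunction (Tor N) ℝ, ∃ p : ℕ × (ℕ → ℂ),
      ∀ t : ℝ, |max (f (ph N t)) 0 - ‖Pool.Agent.Q97.UM.dp p.1 p.2 t‖| < η / 2 := by
    intro f
    obtain ⟨M, b, h⟩ := approx N ⟨fun θ => max (f θ) 0, by fun_prop⟩ (fun θ => le_max_right _ _) (η / 2) (by positivity)
    exact ⟨(M, b), h⟩
  choose P hP using happ
  refine ⟨hY.toFinset.image P, ?_⟩
  intro S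
  have hmem : thB N hρ S ∈ Lip N ρ⁻¹ := by
    refine ⟨fun x y => th_lip N hρ S x y, fun x => ⟨th_nonneg N hρ S x, th_le_one N hρ S x⟩⟩
  have h1 := hcov hmem
  rw [Set.mem_iUnion₂] at h1
  obtain ⟨f, hf, hball⟩ := h1
  refine ⟨P f, Finset.mem_image_of_mem _ (hY.mem_toFinset.2 hf), ?_⟩
  intro t
  have h2 := hP f t
  have h3 : |th N hρ S (ph N t) - max (f (ph N t)) 0| ≤ η / 2 := by
    have h4 : dist (thB N hρ S (ph N t)) (f (ph N t)) ≤ dist (thB N hρ S) f :=
      BoundedContinuousFunction.dist_coe_le_dist _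
    rw [Metric.mem_ball] at hball
    have h5 : |th N hρ S (ph N t) - f (ph N t)| ≤ η / 2 := by
      rw [Real.dist_eq] at h4
      exact h4.trans hball.le
    have h6 : th N hρ S (ph N t) = max (th N hρ S (ph N t)) 0 := (max_eq_left (th_nonneg N hρ S _)).symm
    rw [h6]
    exact (abs_max_sub_max_le_abs _ _ _).trans h5
  calc |th N hρ S (ph N t) - ‖Pool.Agent.Q97.UM.dp (P f).1 (P f).2 t‖| =
      |(th N hρ S (ph N t) - max (f (ph N t)) 0) + (max (f (ph N t)) 0 - ‖Pool.Agent.Q97.UM.dp (P f).1 (P f).2 t‖)| := by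
        congr 1; ring
    _ ≤ |th N hρ S (ph N t) - max (f (ph N t)) 0| + |max (f (ph N t)) 0 - ‖Pool.Agent.Q97.UM.dp (P f).1 (P f).2 t‖| :=
      abs_add_le _ _
    _ ≤ η / 2 + η / 2 := add_le_add h3 h2.le
    _ = η := by ring

end Pool.Agent.H510.UZ
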