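import Pool.Agent.H510.UZ.Tor
import Pool.Graph.R_pool_sql_team_seeded_3997aac3.Q97.UM.Base7
import Pool.Graph.R_pool_sql_team_seeded_3997aac3.Q97.UM.IsoF

/-!
The phases at the zeros: arbitrary subsets of the torus.
-/

set_option autoImplicit false

open Complex Filter Topology MeasureTheory
open Pool.Agent.Q97.UM (dp N2 ZI mz)

namespace Pool.Agent.H510.UZ

/-- the measure of the heights in `[T, 2T]` with a property (outer measure) -/
noncomputable def V (T : ℝ) (P : ℝ → Prop) : ℝ := (volume {t : ℝ | t ∈ Set.Icc T (2 * T) ∧ P t}).toReal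

theorem V_fin (T : ℝ) (P : ℝ → Prop) : volume {t : ℝ | t ∈ Set.Icc T (2 * T) ∧ P t} ≠ ⊤ := by
  refine ne_top_of_le_ne_top ?_ (measure_mono (t := Set.Icc T (2 * T)) fun t ht => ht.1)
  exact measure_Icc_lt_top.ne

theorem V_nonneg (T : ℝ) (P : ℝ → Prop) : 0 ≤ V T P := ENNReal.toReal_nonneg

theorem V_le (T : ℝ) (hT : 0 ≤ T) (P : ℝ → Prop) : V T P ≤ T := by
  unfold V
  have h := measure_mono (μ := volume) (s := {t : ℝ | t ∈ Set.Icc T (2 * T) ∧ P t}) (t := Set.Icc T (2 * T)) fun t ht => ht.1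
  have h2 := ENNReal.toReal_mono measure_Icc_lt_top.ne h
  rw [Real.volume_Icc, ENNReal.toReal_ofReal (by linarith)] at h2
  linarith

theorem V_mono (T : ℝ) (P Q R : ℝ → Prop) (h : ∀ t ∈ Set.Icc T (2 * T), P t → Q t ∨ R t) : V T P ≤ V T Q + V T R := by
  unfold V
  rw [← ENNReal.toReal_add (V_fin T Q) (V_fin T R)]
  apply ENNReal.toReal_mono
  · exact ENNReal.add_ne_top.2 ⟨V_fin T Q, V_fin T R⟩
  · refine le_trans (measure_mono ?_) (measure_union_le _ _)
    rintro t ⟨ht, hP⟩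
    rcases h t ht hP with h1 | h1
    · exact Or.inl ⟨ht, h1⟩
    · exact Or.inr ⟨ht, h1⟩

section sums

variable (Z : Finset ℂ) (m : ℂ → ℝ) (hm : ∀ s ∈ Z, 0 ≤ m s) (ψ Q : ℂ → ℝ) (η : ℝ) (hη0 : 0 ≤ η) (hη1 : η ≤ 1)
  (hψ0 : ∀ s, 0 ≤ ψ s) (hψ1 : ∀ s, ψ s ≤ 1) (hQ : ∀ s, 0 ≤ Q s) (hd : ∀ s, |ψ s - Q s| ≤ η) (P : ℂ → Prop)

theorem sq_close {x y η : ℝ} (hη0 : 0 ≤ η) (hη1 : η ≤ 1) (hx0 : 0 ≤ x) (hx1 : x ≤ 1) (hy : 0 ≤ y) (hd : |x - y| ≤ η) :
    |x ^ 2 - y ^ 2| ≤ 3 * η := by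
  have h1 : x ^ 2 - y ^ 2 = (x - y) * (x + y) := by ring
  rw [abs_le] at hd
  have hy1 : y ≤ 1 + η := by linarith [hd.1]
  rw [h1, abs_mul, abs_of_nonneg (by linarith : 0 ≤ x + y)]
  calc |x - y| * (x + y) ≤ η * 3 := by
        apply mul_le_mul (abs_le.2 hd) (by linarith) (by linarith) hη0
    _ = 3 * η := by ring

open Classical in
include hm hη0 hη1 hψ0 hψ1 hQ hd in
theorem low_sum (h0 : ∀ s, ¬ P s → ψ s = 0) :
    ∑ s ∈ Z, m s * Q s ^ 2 - 3 * η * ∑ s ∈ Z, m s ≤ ∑ s ∈ Z.filter P, m s := by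
  rw [Finset.mul_sum, ← Finset.sum_sub_distrib, Finset.sum_filter]
  apply Finset.sum_le_sum
  intro s hs
  have h1 := abs_le.1 (sq_close hη0 hη1 (hψ0 s) (hψ1 s) (hQ s) (hd s))
  have h2 := hm s hs
  split_ifs with hP
  · have h3 : ψ s ^ 2 ≤ 1 := pow_le_one₀ (hψ0 s) (hψ1 s)
    nlinarith
  · rw [h0 s hP] at h1
    nlinarith

open Classical in
include hm hη0 hη1 hψ0 hψ1 hQ hd in
theorem up_sum (h0 : ∀ s, P s → ψ s = 1) :
    ∑ s ∈ Z.filter P, m s ≤ ∑ s ∈ Z, m s * Q s ^ 2 + 3 * η * ∑ s ∈ Z, m s := by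
  rw [Finset.mul_sum, ← Finset.sum_add_distrib, Finset.sum_filter]
  apply Finset.sum_le_sum
  intro s hs
  have h1 := abs_le.1 (sq_close hη0 hη1 (hψ0 s) (hψ1 s) (hQ s) (hd s))
  have h2 := hm s hs
  split_ifs with hP
  · rw [h0 s hP] at h1
    nlinarith
  · have : 0 ≤ Q s ^ 2 := sq_nonneg _
    nlinarith

end sums

theorem dp_cont (M : ℕ) (b : ℕ → ℂ) : Continuous (dp M b) := by
  unfold dp
  apply continuous_finsetSum
  intro n hn
  have hn1 := (Finset.mem_Icc.mp hn).1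
  have hn0 : (n : ℂ) ≠ 0 := by exact_mod_cast (by omega : n ≠ 0)
  apply Continuous.mul continuous_const
  have : (fun t : ℝ => (n : ℂ) ^ (-(1 / 2 + (t : ℂ) * I))) = fun t : ℝ => cexp (Complex.log n * (-(1 / 2 + (t : ℂ) * I))) := by
    ext t
    rw [Complex.cpow_def_of_ne_zero hn0]
  rw [this]
  fun_prop

theorem th_ph_cont (N : ℕ) {ρ : ℝ} (hρ : 0 < ρ) (S : Set (Tor N)) : Continuous fun t : ℝ => th N hρ S (ph N t) := by
  unfold th
  exact NNReal.continuous_coe.comp ((thickenedIndicator hρ S).continuous.comp (ph_cont N))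

/-- the mean of the square of the thickened indicator -/
theorem th_mean (N : ℕ) {ρ : ℝ} (hρ : 0 < ρ) (S : Set (Tor N)) (T : ℝ) (hT : 0 ≤ T) :
    V T (fun t => ph N t ∈ S) ≤ ∫ t in T..(2 * T), th N hρ S (ph N t) ^ 2 ∧
    ∫ t in T..(2 * T), th N hρ S (ph N t) ^ 2 ≤ V T (fun t => ph N t ∈ Metric.thickening ρ S) := by
  set ψ : ℝ → ℝ := fun t => th N hρ S (ph N t) with hψ
  have hc : Continuous ψ := th_ph_cont N hρ S
  have h0 : ∀ t, 0 ≤ ψ t := fun t => th_nonneg N hρ S _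
  have h1 : ∀ t, ψ t ≤ 1 := fun t => th_le_one N hρ S _
  have hi : IntegrableOn (fun t => ψ t ^ 2) (Set.Icc T (2 * T)) := (hc.pow 2).continuousOn.integrableOn_Icc
  have e : ∫ t in T..(2 * T), ψ t ^ 2 = ∫ t in Set.Icc T (2 * T), ψ t ^ 2 := by
    rw [intervalIntegral.integral_of_le (by linarith), integral_Icc_eq_integral_Ioc]
  rw [e]
  constructor
  · set A : Set ℝ := Set.Icc T (2 * T) ∩ {t | ψ t = 1} with hA
    have hAm : MeasurableSet A := measurableSet_Icc.inter (isClosed_eq hc continuous_const).measurableSet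
    have hAf : volume A ≠ ⊤ := ne_top_of_le_ne_top measure_Icc_lt_top.ne (measure_mono Set.inter_subset_left)
    calc V T (fun t => ph N t ∈ S) ≤ (volume A).toReal := by
          unfold V
          apply ENNReal.toReal_mono hAf
          apply measure_mono
          rintro t ⟨ht, hS⟩
          exact ⟨ht, th_one N hρ S hS⟩
      _ = ∫ t in A, (1 : ℝ) := by rw [setIntegral_const, smul_eq_mul, mul_one]; rfl
      _ = ∫ t in A, ψ t ^ 2 := by
          apply setIntegral_congr_fun hAm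
          intro t ht
          have : ψ t = 1 := ht.2
          simp [this]
      _ ≤ ∫ t in Set.Icc T (2 * T), ψ t ^ 2 := by
          apply setIntegral_mono_set hi
          · exact Filter.Eventually.of_forall fun t => by positivity
          · exact Set.inter_subset_left.eventuallyLE
  · set A : Set ℝ := {t : ℝ | t ∈ Set.Icc T (2 * T) ∧ ph N t ∈ Metric.thickening ρ S} with hA
    have hAm : MeasurableSet A := measurableSet_Icc.inter
      ((Metric.isOpen_thickening.preimage (ph_cont N)).measurableSet)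
    have hAf : volume A ≠ ⊤ := V_fin T _
    calc ∫ t in Set.Icc T (2 * T), ψ t ^ 2 ≤ ∫ t in Set.Icc T (2 * T), A.indicator (fun _ => (1 : ℝ)) t := by
          apply setIntegral_mono_on hi _ measurableSet_Icc
          · intro t ht
            by_cases hA2 : t ∈ A
            · rw [Set.indicator_of_mem hA2]
              exact pow_le_one₀ (h0 t) (h1 t)
            · rw [Set.indicator_of_notMem hA2]
              have : ph N t ∉ Metric.thickening ρ S := fun h => hA2 ⟨ht, h⟩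
              have h3 : ψ t = 0 := th_zero N hρ S this
              simp [h3]
          · exact (integrable_indicator_iff hAm).2 (integrableOn_const hAf) |>.integrableOn
      _ = ∫ t in Set.Icc T (2 * T) ∩ A, (1 : ℝ) := by rw [setIntegral_indicator hAm]
      _ = V T (fun t => ph N t ∈ Metric.thickening ρ S) := by
          have e2 : Set.Icc T (2 * T) ∩ A = A := Set.inter_eq_right.2 fun t ht => ht.1
          rw [e2, setIntegral_const, smul_eq_mul, mul_one]
          rfl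

open Classical in
/-- the transfer principle for arbitrary subsets of the torus -/
theorem torus_transfer (ε : ℝ) (hε : 0 < ε) : ∃ d : ℝ, 0 < d ∧ d ≤ 1 ∧ ∀ (N : ℕ) (ρ : ℝ), 0 < ρ → ∀ᶠ T : ℝ in atTop,
    ∀ S : Set (Tor N),
    (2 - H370.cMTinv) * (Real.log T / (2 * Real.pi) * V T (fun t => ph N t ∈ S)) - ε * T * Real.log T ≤
      (((ZI d T).filter fun s => ph N s.im ∈ Metric.thickening ρ S).card : ℝ) ∧
    ((3 - H370.cMTinv) / 2) * (Real.log T / (2 * Real.pi) * V T (fun t => ph N t ∈ S)) - ε * T * Real.log T ≤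
      ((((H370.Zf riemannZeta T (2 * T)).filter fun s => s.re ≤ 1 / 2).filter
        fun s => ph N s.im ∈ Metric.thickening ρ S).card : ℝ) ∧
    Real.log T / (2 * Real.pi) * V T (fun t => ph N t ∈ S) - ε * T * Real.log T ≤
      ∑ s ∈ (H370.Zf riemannZeta T (2 * T)).filter fun s => ph N s.im ∈ Metric.thickening ρ S, (mz s : ℝ) ∧
    ∑ s ∈ (H370.Zf riemannZeta T (2 * T)).filter fun s => ph N s.im ∈ S, (mz s : ℝ) ≤
      Real.log T / (2 * Real.pi) * V T (fun t => ph N t ∈ Metric.thickening ρ S) + ε * T * Real.log T := by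
  obtain ⟨ε', hε'⟩ : ∃ ε' : ℝ, ε' = min (ε / 64) (1 / 64) := ⟨_, rfl⟩
  have hε0 : 0 < ε' := by rw [hε']; positivity
  have hε1 : ε' ≤ 1 / 64 := by rw [hε']; exact min_le_right _ _
  have hε2 : 64 * ε' ≤ ε := by
    have : ε' ≤ ε / 64 := by rw [hε']; exact min_le_left _ _
    linarith
  obtain ⟨d, θ, hd0, hd1, hθ0, hθ1, hI⟩ := Pool.Agent.Q97.UM.b_SAMPI ε' hε0
  obtain ⟨θ₂, hθ₂0, hθ₂1, hA⟩ := Pool.Agent.Q97.UM.b_SAMP ε' hε0
  refine ⟨d, hd0, hd1, ?_⟩
  intro N ρ hρ
  obtain ⟨𝓑, h𝓑⟩ := net N hρ ε' hε0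
  have hlen : ∀ᶠ T : ℝ in atTop, ∀ p ∈ 𝓑, ((p.1 : ℕ) : ℝ) ≤ T ^ θ ∧ ((p.1 : ℕ) : ℝ) ≤ T ^ θ₂ := by
    rw [Filter.eventually_all_finset]
    intro p _
    exact ((tendsto_rpow_atTop hθ0).eventually_ge_atTop _).and ((tendsto_rpow_atTop hθ₂0).eventually_ge_atTop _)
  filter_upwards [hI, hA, Pool.Agent.Q97.UM.mv_rel ε' hε0, hlen, eventually_ge_atTop 16] with T hI hA hMV hlen hT S
  have hT0 : 0 < T := by linarith
  have hL : 0 < Real.log T := Real.log_pos (by linarith)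
  have hpi3 := Real.pi_gt_three
  have hpi := Real.pi_pos
  have hc1 := H370.cMTinv_gt_one
  have hc2 := H370.cMTinv_lt
  obtain ⟨⟨M, b⟩, hp, hclose⟩ := h𝓑 S
  obtain ⟨hM1, hM2⟩ := hlen _ hp
  simp only at hM1 hM2 hclose
  have hM3 : (M : ℝ) ≤ T ^ (1 / 40 : ℝ) := hM1.trans (Real.rpow_le_rpow_of_exponent_le (by linarith) hθ1)
  have a1 := hI M hM1 b
  obtain ⟨-, a2, a3⟩ := hA M hM2 b
  have a4 := hMV M hM3 b
  -- the number of all zeros
  have hone := (hA 1 (by rw [Nat.cast_one]; exact Real.one_le_rpow (by linarith) hθ₂0.le) (fun _ => 1)).2.2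
  have hN21 : N2 1 (fun _ => (1 : ℂ)) = 1 := by simp [N2]
  have hdp1 : ∀ t : ℝ, dp 1 (fun _ => (1 : ℂ)) t = 1 := by intro t; simp [dp]
  simp only [hN21, hdp1, norm_one, one_pow, mul_one] at hone
  set L := Real.log T with hLdef
  set w := L / (2 * Real.pi) with hw
  have hw0 : 0 < w := by positivity
  have hwL : w ≤ L / 6 := by
    rw [hw]
    apply div_le_div_of_nonneg_left hL.le (by norm_num) (by linarith)
  have hall : ∑ s ∈ H370.Zf riemannZeta T (2 * T), (mz s : ℝ) ≤ T * L := by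
    have h1 := (abs_le.1 hone).2
    have h2 : w * T ≤ L / 6 * T := by gcongr
    have h3 : ε' * L * T ≤ 1 / 64 * L * T := by gcongr
    have h4 : 0 < L * T := by positivity
    linarith
  have hm1 : ∀ s ∈ H370.Zf riemannZeta T (2 * T), (1 : ℝ) ≤ (mz s : ℝ) := by
    intro s hs
    rw [H370.mem_Zf H370.good_zeta (by linarith : (1 : ℝ) ≤ T)] at hs
    have : 1 ≤ H370.mult riemannZeta s := H370.Loc.mult_pos' H370.good_zeta (by linarith [hs.2.2.1]) hs.2.2.2.2
    have h2 : mz s = H370.mult riemannZeta s := rfl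
    rw [h2]
    exact_mod_cast this
  have hcardall : ((H370.Zf riemannZeta T (2 * T)).card : ℝ) ≤ T * L := by
    refine le_trans ?_ hall
    rw [Finset.card_eq_sum_ones, Nat.cast_sum]
    apply Finset.sum_le_sum
    intro s hs
    simpa using hm1 s hs
  set X := T * N2 M b with hX
  have hX0 : 0 ≤ X := by
    rw [hX]; unfold N2; positivity
  set J := ∫ t in T..(2 * T), ‖dp M b t‖ ^ 2 with hJ
  set K := ∫ t in T..(2 * T), th N hρ S (ph N t) ^ 2 with hK
  have hK2 := th_mean N hρ S T hT0.le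
  rw [← hK] at hK2
  have hVT := V_le T hT0.le (fun t => ph N t ∈ Metric.thickening ρ S)
  have hJK : |J - K| ≤ 3 * ε' * T := by
    have hi1 : IntervalIntegrable (fun t => ‖dp M b t‖ ^ 2) volume T (2 * T) :=
      ((dp_cont M b).norm.pow 2).intervalIntegrable _ _
    have hi2 : IntervalIntegrable (fun t => th N hρ S (ph N t) ^ 2) volume T (2 * T) :=
      ((th_ph_cont N hρ S).pow 2).intervalIntegrable _ _
    rw [hJ, hK, ← intervalIntegral.integral_sub hi1 hi2]
    have h1 := intervalIntegral.norm_integral_le_of_norm_le_const (a := T) (b := 2 * T) (C := 3 * ε')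
      (f := fun t => ‖dp M b t‖ ^ 2 - th N hρ S (ph N t) ^ 2) (by
        intro t _
        rw [Real.norm_eq_abs, abs_sub_comm]
        exact sq_close hε0.le (by linarith) (th_nonneg N hρ S _) (th_le_one N hρ S _) (norm_nonneg _) (hclose t))
    rw [Real.norm_eq_abs] at h1
    refine h1.trans (le_of_eq ?_)
    rw [show 2 * T - T = T by ring, abs_of_pos hT0]
  rw [abs_le] at hJK a4
  have hεT : ε' * T ≤ 1 / 64 * T := mul_le_mul_of_nonneg_right hε1 hT0.le
  have hεX64 : ε' * X ≤ 1 / 64 * X := mul_le_mul_of_nonneg_right hε1 hX0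
  have hJK1 : -(3 * (ε' * T)) ≤ J - K := by linarith [hJK.1]
  have hJK2 : J - K ≤ 3 * (ε' * T) := by linarith [hJK.2]
  have hJ1 : J ≤ 2 * T := by linarith [hK2.2]
  have hX1 : X ≤ 4 * T := by linarith [a4.1]
  have hεX4 : ε' * X ≤ 4 * (ε' * T) := by
    have := mul_le_mul_of_nonneg_left hX1 hε0.le
    linarith
  have hX2 : V T (fun t => ph N t ∈ S) - 7 * ε' * T ≤ X := by linarith [a4.2, hK2.1]
  have hX3 : X ≤ V T (fun t => ph N t ∈ Metric.thickening ρ S) + 7 * ε' * T := by linarith [a4.1, hK2.2]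
  have hψ0 : ∀ s : ℂ, 0 ≤ th N hρ S (ph N s.im) := fun s => th_nonneg N hρ S _
  have hψ1 : ∀ s : ℂ, th N hρ S (ph N s.im) ≤ 1 := fun s => th_le_one N hρ S _
  have hε'1 : ε' ≤ 1 := by linarith
  have hTL : 0 < T * L := by positivity
  have hwX : w * (V T (fun t => ph N t ∈ S) - 7 * ε' * T) ≤ w * X := mul_le_mul_of_nonneg_left hX2 hw0.le
  have hwX4 : w * X ≤ L / 6 * (4 * T) := mul_le_mul hwL hX1 hX0 (by positivity)
  have hwT : w * T ≤ L / 6 * T := by gcongr
  have hεTL : 0 ≤ ε' * (T * L) := by positivity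
  have hεfin : 64 * (ε' * (T * L)) ≤ ε * T * L := by
    calc 64 * (ε' * (T * L)) = (64 * ε') * (T * L) := by ring
      _ ≤ ε * (T * L) := by gcongr
      _ = _ := by ring
  have hεwT : ε' * (w * T) ≤ ε' * (T * L) / 6 := by
    calc ε' * (w * T) ≤ ε' * (L / 6 * T) := by gcongr
      _ = _ := by ring
  have hεwX : ε' * (w * X) ≤ ε' * (T * L) := by
    calc ε' * (w * X) ≤ ε' * (L / 6 * (4 * T)) := by gcongr
      _ ≤ _ := by linarith
  have hV0 := V_nonneg T (fun t => ph N t ∈ S)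
  refine ⟨?_, ?_, ?_, ?_⟩
  · -- simple isolated zeros
    have h1 := low_sum (ZI d T) (fun _ => 1) (fun _ _ => zero_le_one) (fun s => th N hρ S (ph N s.im))
      (fun s => ‖dp M b s.im‖) ε' hε0.le hε'1 hψ0 hψ1 (fun _ => norm_nonneg _) (fun s => hclose s.im)
      (fun s => ph N s.im ∈ Metric.thickening ρ S) (fun s hs => th_zero N hρ S hs)
    simp only [one_mul, Finset.sum_const, nsmul_eq_mul, mul_one] at h1
    have h2 : ((ZI d T).card : ℝ) ≤ T * L := by
      refine le_trans ?_ hcardall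
      exact_mod_cast Finset.card_le_card (Finset.filter_subset _ _)
    have h3 : (2 - H370.cMTinv - ε') * w * X ≤ ∑ s ∈ ZI d T, ‖dp M b s.im‖ ^ 2 := a1
    have h4 : (2 - H370.cMTinv) * (w * V T (fun t => ph N t ∈ S)) - 7 * ε' * (w * T) ≤ (2 - H370.cMTinv) * (w * X) := by
      have e1 : (2 - H370.cMTinv) * (w * (V T (fun t => ph N t ∈ S) - 7 * ε' * T)) ≤ (2 - H370.cMTinv) * (w * X) :=
        mul_le_mul_of_nonneg_left hwX (by linarith)
      have e2 : (2 - H370.cMTinv) * (7 * ε' * (w * T)) ≤ 1 * (7 * ε' * (w * T)) := by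
        apply mul_le_mul_of_nonneg_right (by linarith) (by positivity)
      linarith
    have h5 : 3 * ε' * ((ZI d T).card : ℝ) ≤ 3 * ε' * (T * L) := by gcongr
    have h6 : (2 - H370.cMTinv - ε') * w * X = (2 - H370.cMTinv) * (w * X) - ε' * (w * X) := by ring
    linarith
  · -- distinct zeros
    have h1 := low_sum ((H370.Zf riemannZeta T (2 * T)).filter fun s => s.re ≤ 1 / 2) (fun _ => 1) (fun _ _ => zero_le_one)
      (fun s => th N hρ S (ph N s.im))
      (fun s => ‖dp M b s.im‖) ε' hε0.le hε'1 hψ0 hψ1 (fun _ => norm_nonneg _) (fun s => hclose s.im)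
      (fun s => ph N s.im ∈ Metric.thickening ρ S) (fun s hs => th_zero N hρ S hs)
    simp only [one_mul, Finset.sum_const, nsmul_eq_mul, mul_one] at h1
    have h2 : ((((H370.Zf riemannZeta T (2 * T)).filter fun s => s.re ≤ 1 / 2).card : ℕ) : ℝ) ≤ T * L := by
      refine le_trans ?_ hcardall
      exact_mod_cast Finset.card_le_card (Finset.filter_subset _ _)
    have h3 : ((3 - H370.cMTinv) / 2 - ε') * w * X ≤
        ∑ s ∈ (H370.Zf riemannZeta T (2 * T)).filter fun s => s.re ≤ 1 / 2, ‖dp M b s.im‖ ^ 2 := a2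
    have h4 : ((3 - H370.cMTinv) / 2) * (w * V T (fun t => ph N t ∈ S)) - 7 * ε' * (w * T) ≤
        ((3 - H370.cMTinv) / 2) * (w * X) := by
      have e1 : ((3 - H370.cMTinv) / 2) * (w * (V T (fun t => ph N t ∈ S) - 7 * ε' * T)) ≤ ((3 - H370.cMTinv) / 2) * (w * X) :=
        mul_le_mul_of_nonneg_left hwX (by linarith)
      have e2 : ((3 - H370.cMTinv) / 2) * (7 * ε' * (w * T)) ≤ 1 * (7 * ε' * (w * T)) := by
        apply mul_le_mul_of_nonneg_right (by linarith) (by positivity)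
      linarith
    have h5 : 3 * ε' * ((((H370.Zf riemannZeta T (2 * T)).filter fun s => s.re ≤ 1 / 2).card : ℕ) : ℝ) ≤ 3 * ε' * (T * L) := by
      gcongr
    have h6 : ((3 - H370.cMTinv) / 2 - ε') * w * X = ((3 - H370.cMTinv) / 2) * (w * X) - ε' * (w * X) := by ring
    linarith
  · -- all zeros, lower bound
    have h1 := low_sum (H370.Zf riemannZeta T (2 * T)) (fun s => (mz s : ℝ)) (fun _ _ => Nat.cast_nonneg _)
      (fun s => th N hρ S (ph N s.im))
      (fun s => ‖dp M b s.im‖) ε' hε0.le hε'1 hψ0 hψ1 (fun _ => norm_nonneg _) (fun s => hclose s.im)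
      (fun s => ph N s.im ∈ Metric.thickening ρ S) (fun s hs => th_zero N hρ S hs)
    have h3 : w * X - ε' * L * X ≤ ∑ s ∈ H370.Zf riemannZeta T (2 * T), (mz s : ℝ) * ‖dp M b s.im‖ ^ 2 := by
      have := (abs_le.1 a3).1
      linarith
    have h5 : 3 * ε' * ∑ s ∈ H370.Zf riemannZeta T (2 * T), (mz s : ℝ) ≤ 3 * ε' * (T * L) := by gcongr
    have h7 : ε' * L * X ≤ ε' * L * (4 * T) := by gcongr
    linarith
  · -- all zeros, upper bound
    have h1 := up_sum (H370.Zf riemannZeta T (2 * T)) (fun s => (mz s : ℝ)) (fun _ _ => Nat.cast_nonneg _)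
      (fun s => th N hρ S (ph N s.im))
      (fun s => ‖dp M b s.im‖) ε' hε0.le hε'1 hψ0 hψ1 (fun _ => norm_nonneg _) (fun s => hclose s.im)
      (fun s => ph N s.im ∈ S) (fun s hs => th_one N hρ S hs)
    have h3 : ∑ s ∈ H370.Zf riemannZeta T (2 * T), (mz s : ℝ) * ‖dp M b s.im‖ ^ 2 ≤ w * X + ε' * L * X := by
      have := (abs_le.1 a3).2
      linarith
    have h5 : 3 * ε' * ∑ s ∈ H370.Zf riemannZeta T (2 * T), (mz s : ℝ) ≤ 3 * ε' * (T * L) := by gcongr
    have h7 : ε' * L * X ≤ ε' * L * (4 * T) := by gcongr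
    have h8 : w * X ≤ w * (V T (fun t => ph N t ∈ Metric.thickening ρ S) + 7 * ε' * T) := by gcongr
    linarith

end Pool.Agent.H510.UZ
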