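import Pool.Agent.H510.UZ.Trans
import Pool.Agent.H510.UZ.Ms

/-!
The values of zeta to the right of the critical line at the heights of the zeros.
-/

set_option autoImplicit false

open Complex Filter Topology MeasureTheory
open Pool.Agent.Q97.UM (dp N2 ZI mz)

namespace Pool.Agent.H510.UZ

/-- `z ↦ ζ(z + it)` is on `K` at distance less than `η` from a member of `A` -/
def Near (K : Set ℂ) (A : Set (ℂ → ℂ)) (η t : ℝ) : Prop :=
  ∃ f ∈ A, ∃ r < η, ∀ z ∈ K, ‖riemannZeta (z + t * I) - f z‖ ≤ r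

/-- the same for the Dirichlet polynomial with phases `θ` -/
def SN (N : ℕ) (K : Set ℂ) (A : Set (ℂ → ℂ)) (x : ℝ) : Set (Tor N) :=
  {θ | ∃ f ∈ A, ∃ r < x, ∀ z ∈ K, ‖FT N θ z - f z‖ ≤ r}

open Classical in
theorem sum_or (Z : Finset ℂ) (m : ℂ → ℝ) (hm : ∀ s ∈ Z, 0 ≤ m s) (P Q R : ℂ → Prop) (h : ∀ s ∈ Z, P s → Q s ∨ R s) :
    ∑ s ∈ Z.filter P, m s ≤ ∑ s ∈ Z.filter Q, m s + ∑ s ∈ Z.filter R, m s := by
  rw [Finset.sum_filter, Finset.sum_filter, Finset.sum_filter, ← Finset.sum_add_distrib]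
  apply Finset.sum_le_sum
  intro s hs
  have h1 := hm s hs
  by_cases hP : P s
  · rcases h s hs hP with h2 | h2
    · simp only [hP, h2, if_true]
      split_ifs <;> linarith
    · simp only [hP, h2, if_true]
      split_ifs <;> linarith
  · simp only [hP, if_false]
    split_ifs <;> linarith

open Classical in
theorem card_or (Z : Finset ℂ) (P Q R : ℂ → Prop) (h : ∀ s ∈ Z, P s → Q s ∨ R s) :
    ((Z.filter P).card : ℝ) ≤ ((Z.filter Q).card : ℝ) + ((Z.filter R).card : ℝ) := by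
  have := sum_or Z (fun _ => 1) (fun _ _ => zero_le_one) P Q R h
  simpa using this

open Classical in
theorem value_transfer (ε : ℝ) (hε : 0 < ε) : ∃ d : ℝ, 0 < d ∧ d ≤ 1 ∧ ∀ (K : Set ℂ), IsCompact K →
    (∀ z ∈ K, 1 / 2 < z.re ∧ z.re < 1) → ∀ κ : ℝ, 0 < κ → ∀ᶠ T : ℝ in atTop, ∀ (A : Set (ℂ → ℂ)) (η : ℝ),
    (2 - H370.cMTinv) * (Real.log T / (2 * Real.pi) * V T (Near K A η)) - ε * T * Real.log T ≤
      (((ZI d T).filter fun s => Near K A (η + κ) s.im).card : ℝ) ∧
    ((3 - H370.cMTinv) / 2) * (Real.log T / (2 * Real.pi) * V T (Near K A η)) - ε * T * Real.log T ≤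
      ((((H370.Zf riemannZeta T (2 * T)).filter fun s => s.re ≤ 1 / 2).filter
        fun s => Near K A (η + κ) s.im).card : ℝ) ∧
    Real.log T / (2 * Real.pi) * V T (Near K A η) - ε * T * Real.log T ≤
      ∑ s ∈ (H370.Zf riemannZeta T (2 * T)).filter fun s => Near K A (η + κ) s.im, (mz s : ℝ) ∧
    ∑ s ∈ (H370.Zf riemannZeta T (2 * T)).filter fun s => Near K A η s.im, (mz s : ℝ) ≤
      Real.log T / (2 * Real.pi) * V T (Near K A (η + κ)) + ε * T * Real.log T := by
  obtain ⟨d, hd0, hd1, htor⟩ := torus_transfer (ε / 2) (by positivity)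
  refine ⟨d, hd0, hd1, ?_⟩
  intro K hK hKs κ hκ
  obtain ⟨a, b, B, h1, h2, h3, hB, hKr⟩ := ZU.J_f.exists_rectV K hK (fun z hz => hKs z hz)
  set δ : ℝ := κ / 3 with hδ
  have hδ0 : 0 < δ := by positivity
  obtain ⟨N, hbad⟩ := few_bad a b B h1 h2 h3 hB δ (ε / 4) hδ0 (by positivity)
  set ρ : ℝ := δ / (N + 1) with hρ
  have hρ0 : 0 < ρ := by positivity
  have hNρ : (N : ℝ) * ρ ≤ δ := by
    rw [hρ, mul_div_assoc', div_le_iff₀ (by positivity)]
    nlinarith
  -- the facts
  have hKre : ∀ z ∈ K, 0 ≤ z.re := fun z hz => by linarith [(hKs z hz).1]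
  have hnb : ∀ t : ℝ, ¬ Bad a b B δ N t → ∀ z ∈ K, ‖riemannZeta (z + t * I) - FT N (ph N t) z‖ ≤ δ := by
    intro t ht z hz
    unfold Bad at ht
    push Not at ht
    have h5 := ht z (hKr hz)
    unfold E at h5
    rw [FT_ph]
    exact h5.le
  have F1 : ∀ (A : Set (ℂ → ℂ)) (x t : ℝ), ¬ Bad a b B δ N t → Near K A x t → ph N t ∈ SN N K A (x + δ) := by
    rintro A x t ht ⟨f, hf, r, hr, h⟩
    refine ⟨f, hf, r + δ, by linarith, ?_⟩
    intro z hz
    have h5 := hnb t ht z hz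
    have h6 := h z hz
    calc ‖FT N (ph N t) z - f z‖ = ‖(riemannZeta (z + t * I) - f z) - (riemannZeta (z + t * I) - FT N (ph N t) z)‖ := by
          congr 1; ring
      _ ≤ ‖riemannZeta (z + t * I) - f z‖ + ‖riemannZeta (z + t * I) - FT N (ph N t) z‖ := norm_sub_le _ _
      _ ≤ r + δ := add_le_add h6 h5
  have F2 : ∀ (A : Set (ℂ → ℂ)) (x : ℝ) (θ : Tor N), θ ∈ Metric.thickening ρ (SN N K A x) → θ ∈ SN N K A (x + δ) := by
    intro A x θ hθ
    rw [Metric.mem_thickening_iff] at hθ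
    obtain ⟨θ', ⟨f, hf, r, hr, h⟩, hdist⟩ := hθ
    refine ⟨f, hf, r + δ, by linarith, ?_⟩
    intro z hz
    have h5 := FT_lip N θ θ' z (hKre z hz)
    have h6 : (N : ℝ) * dist θ θ' ≤ δ := le_trans (by gcongr) hNρ
    calc ‖FT N θ z - f z‖ = ‖(FT N θ z - FT N θ' z) + (FT N θ' z - f z)‖ := by congr 1; ring
      _ ≤ ‖FT N θ z - FT N θ' z‖ + ‖FT N θ' z - f z‖ := norm_add_le _ _
      _ ≤ δ + r := add_le_add (h5.trans h6) (h z hz)
      _ = r + δ := by ring
  have F3 : ∀ (A : Set (ℂ → ℂ)) (x t : ℝ), ¬ Bad a b B δ N t → ph N t ∈ SN N K A x → Near K A (x + δ) t := by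
    rintro A x t ht ⟨f, hf, r, hr, h⟩
    refine ⟨f, hf, r + δ, by linarith, ?_⟩
    intro z hz
    have h5 := hnb t ht z hz
    have h6 := h z hz
    calc ‖riemannZeta (z + t * I) - f z‖ = ‖(riemannZeta (z + t * I) - FT N (ph N t) z) + (FT N (ph N t) z - f z)‖ := by
          congr 1; ring
      _ ≤ ‖riemannZeta (z + t * I) - FT N (ph N t) z‖ + ‖FT N (ph N t) z - f z‖ := norm_add_le _ _
      _ ≤ δ + r := add_le_add h5 h6
      _ = r + δ := by ring
  have hκ3 : ∀ x : ℝ, x + δ + δ + δ = x + κ := by intro x; rw [hδ]; ring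
  filter_upwards [htor N ρ hρ0, hbad, eventually_ge_atTop 16] with T htor hbad hT A η
  have hT0 : 0 < T := by linarith
  have hL : 0 < Real.log T := Real.log_pos (by linarith)
  have hpi3 := Real.pi_gt_three
  obtain ⟨hb1, hb2⟩ := hbad
  have hb1' : V T (Bad a b B δ N) ≤ ε / 4 * T := by
    unfold V
    have h5 := ENNReal.toReal_mono ENNReal.ofReal_ne_top hb1
    rwa [ENNReal.toReal_ofReal (by positivity)] at h5
  set L := Real.log T with hLdef
  set w := L / (2 * Real.pi) with hw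
  have hw0 : 0 < w := by positivity
  have hwL : w ≤ L / 6 := by
    rw [hw]
    apply div_le_div_of_nonneg_left hL.le (by norm_num) (by linarith)
  have hc1 := H370.cMTinv_gt_one
  have hc2 := H370.cMTinv_lt
  obtain ⟨t1, t2, t3, t4⟩ := htor (SN N K A (η + δ))
  have hZ : ∀ s ∈ H370.Zf riemannZeta T (2 * T), (1 : ℝ) ≤ (mz s : ℝ) := by
    intro s hs
    rw [H370.mem_Zf H370.good_zeta (by linarith : (1 : ℝ) ≤ T)] at hs
    have : 1 ≤ H370.mult riemannZeta s := H370.Loc.mult_pos' H370.good_zeta (by linarith [hs.2.2.1]) hs.2.2.2.2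
    have h2 : mz s = H370.mult riemannZeta s := rfl
    rw [h2]
    exact_mod_cast this
  have hb2' : ∑ s ∈ (H370.Zf riemannZeta T (2 * T)).filter (fun s => Bad a b B δ N s.im), (mz s : ℝ) ≤ ε / 4 * T * L := hb2
  have hbc : (((H370.Zf riemannZeta T (2 * T)).filter (fun s => Bad a b B δ N s.im)).card : ℝ) ≤ ε / 4 * T * L := by
    refine le_trans ?_ hb2'
    rw [Finset.card_eq_sum_ones, Nat.cast_sum]
    apply Finset.sum_le_sum
    intro s hs
    simpa using hZ s (Finset.mem_filter.1 hs).1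
  -- measures
  have hV1 : V T (Near K A η) ≤ V T (fun t => ph N t ∈ SN N K A (η + δ)) + V T (Bad a b B δ N) := by
    apply V_mono
    intro t _ ht
    by_cases hb : Bad a b B δ N t
    · exact Or.inr hb
    · exact Or.inl (F1 A η t hb ht)
  have hV2 : V T (fun t => ph N t ∈ Metric.thickening ρ (SN N K A (η + δ))) ≤ V T (Near K A (η + κ)) + V T (Bad a b B δ N) := by
    apply V_mono
    intro t _ ht
    by_cases hb : Bad a b B δ N t
    · exact Or.inr hb
    · left
      have h5 := F3 A _ t hb (F2 A _ _ ht)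
      rwa [hκ3] at h5
  have hpt : ∀ s : ℂ, ph N s.im ∈ Metric.thickening ρ (SN N K A (η + δ)) → Near K A (η + κ) s.im ∨ Bad a b B δ N s.im := by
    intro s hs
    by_cases hb : Bad a b B δ N s.im
    · exact Or.inr hb
    · left
      have h5 := F3 A _ s.im hb (F2 A _ _ hs)
      rwa [hκ3] at h5
  have hwV1 : w * V T (Near K A η) ≤ w * V T (fun t => ph N t ∈ SN N K A (η + δ)) + w * V T (Bad a b B δ N) := by
    rw [← mul_add]; gcongr
  have hwb : w * V T (Bad a b B δ N) ≤ L / 6 * (ε / 4 * T) := by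
    apply mul_le_mul hwL hb1' (V_nonneg _ _) (by positivity)
  have hεTL : 0 < ε * T * L := by positivity
  have hVb0 : 0 ≤ w * V T (Bad a b B δ N) := mul_nonneg hw0.le (V_nonneg _ _)
  have aux : ∀ c : ℝ, 0 ≤ c → c ≤ 1 → c * (w * V T (Near K A η)) ≤
      c * (w * V T (fun t => ph N t ∈ SN N K A (η + δ))) + L / 6 * (ε / 4 * T) := by
    intro c hc0 hc1
    have e1 := mul_le_mul_of_nonneg_left hwV1 hc0
    have e2 : c * (w * V T (Bad a b B δ N)) ≤ 1 * (w * V T (Bad a b B δ N)) := mul_le_mul_of_nonneg_right hc1 hVb0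
    linarith
  refine ⟨?_, ?_, ?_, ?_⟩
  · have e1 := aux (2 - H370.cMTinv) (by linarith) (by linarith)
    have e2 := card_or (ZI d T) (fun s => ph N s.im ∈ Metric.thickening ρ (SN N K A (η + δ)))
      (fun s => Near K A (η + κ) s.im) (fun s => Bad a b B δ N s.im) (fun s _ h => hpt s h)
    have e3 : (((ZI d T).filter (fun s => Bad a b B δ N s.im)).card : ℝ) ≤ ε / 4 * T * L := by
      refine le_trans ?_ hbc
      exact_mod_cast Finset.card_le_card (Finset.filter_subset_filter _ (Finset.filter_subset _ _))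
    linarith
  · have e1 := aux ((3 - H370.cMTinv) / 2) (by linarith) (by linarith)
    have e2 := card_or ((H370.Zf riemannZeta T (2 * T)).filter fun s => s.re ≤ 1 / 2)
      (fun s => ph N s.im ∈ Metric.thickening ρ (SN N K A (η + δ)))
      (fun s => Near K A (η + κ) s.im) (fun s => Bad a b B δ N s.im) (fun s _ h => hpt s h)
    have e3 : ((((H370.Zf riemannZeta T (2 * T)).filter fun s => s.re ≤ 1 / 2).filter
        (fun s => Bad a b B δ N s.im)).card : ℝ) ≤ ε / 4 * T * L := by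
      refine le_trans ?_ hbc
      exact_mod_cast Finset.card_le_card (Finset.filter_subset_filter _ (Finset.filter_subset _ _))
    linarith
  · have e2 := sum_or (H370.Zf riemannZeta T (2 * T)) (fun s => (mz s : ℝ)) (fun _ _ => Nat.cast_nonneg _)
      (fun s => ph N s.im ∈ Metric.thickening ρ (SN N K A (η + δ)))
      (fun s => Near K A (η + κ) s.im) (fun s => Bad a b B δ N s.im) (fun s _ h => hpt s h)
    linarith
  · have e2 := sum_or (H370.Zf riemannZeta T (2 * T)) (fun s => (mz s : ℝ)) (fun _ _ => Nat.cast_nonneg _)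
      (fun s => Near K A η s.im)
      (fun s => ph N s.im ∈ SN N K A (η + δ)) (fun s => Bad a b B δ N s.im) (by
        intro s _ hs
        by_cases hb : Bad a b B δ N s.im
        · exact Or.inr hb
        · exact Or.inl (F1 A η s.im hb hs))
    have e3 : w * V T (fun t => ph N t ∈ Metric.thickening ρ (SN N K A (η + δ))) ≤
        w * V T (Near K A (η + κ)) + w * V T (Bad a b B δ N) := by
      rw [← mul_add]; gcongr
    linarith

end Pool.Agent.H510.UZ
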